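import Pool.Agent.H94.LP7.M15
import Pool.Agent.H94.LP7.M38
import Pool.Agent.H94.LP7.M42

/-!
# General d, ALPHA: the replacement of an ordinary object

`av_ub`: only upper bounds for the lower pairs are needed (also for configurations with clusters).
-/

set_option autoImplicit false
set_option linter.unusedSectionVars false

namespace Pool.Agent.GD.AL

open Finset MvPolynomial Pool.Agent.H51.TB Pool.Agent.V7.ST

section AV

/-- The replacement of an ordinary object, from upper bounds for the lower pairs. -/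
theorem av_ub {d D : ℕ} {J : ℕ} {σ : St} {I : Finset ℕ} (hD : D ≤ d) (hI : I ⊆ range J)
    (hm : ∀ k ∈ σ.ms, k.Ok d J) {x : ℕ} {A : Finset ℕ} {a c' : ℕ} (hx : 2 ≤ x) (hxD : x ≤ D)
    (hA : A ⊆ range J) (ha : a ∈ I) (haA : a ∉ A) (hc' : c' ≤ σ.c a) (hw : 1 ≤ σ.w)
    (hX : ∀ t ≤ c', (1 ≤ t ∨ c' = 0) → ∀ D' ≤ D - x + 1,
      ((σ.lo a t).lw 1).dl d J (insert a (I ∩ A)) D' ≤ 0) :
    (c' : ℤ) * (σ.ad (.ord x A)).dl d J I D ≤
      (c' - 1 : ℤ) * (σ.ad (.ord x (insert a A))).dl d J I D +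
        (σ.ad (.ord (x - 1) (insert a A))).dl d J I D := by
  obtain ⟨c, w, ms⟩ := σ
  simp only at hm hc' hw
  obtain ⟨w, rfl⟩ : ∃ w', w = w' + 1 := ⟨w - 1, by omega⟩
  have haJ : a < J := mem_range.1 (hI ha)
  have hA' : insert a A ⊆ range J := insert_subset (mem_range.2 haJ) hA
  have hI12 : I ∩ insert a A = insert a (I ∩ A) := by
    rw [inter_insert_of_mem ha]
  have haI1 : a ∉ I ∩ A := fun h => haA (Finset.mem_inter.1 h).2
  have hI1 : I ∩ A ⊆ range J := inter_subset_right.trans hA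
  have hAz : A ⊆ (range J).erase a := fun y hy =>
    mem_erase.2 ⟨fun h => haA (h ▸ hy), hA hy⟩
  set n := ∑ l ∈ range J, c l + (w + 1) with hn
  have hca : c a ≤ ∑ i ∈ range J, c i :=
    single_le_sum (f := c) (fun _ _ => Nat.zero_le _) (mem_range.2 haJ)
  have hg : ∀ t ≤ c', (1 ≤ t ∨ c' = 0) → ∀ j ≤ D + 1 - x,
      (gz d (bt J c (w + 1)) ms (insert a A) ((range J).erase a) j (I ∩ insert a A) t : ℤ) ≤
        vd j (I ∩ insert a A) (cm c a t) (n - t - 1) ms := by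
    intro t ht ht0 j hj
    have hs := sum_cm (c := c) (t := t) haJ (by omega)
    unfold gz
    have h1 : (Kd.ord 1 (insert a A) ::ₘ
        (Multiset.replicate t (Kd.ord 1 ((range J).erase a)) + ms)) =
          Multiset.replicate t (Kd.ord 1 ((range J).erase a)) + (Kd.ord 1 (insert a A) ::ₘ ms) := by
      rw [Multiset.add_cons]
    rw [h1, HI_bt_los (by omega) (by omega) haJ (inter_subset_right.trans hA') _ (by
      intro k hk
      rcases Multiset.mem_cons.1 hk with rfl | hk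
      · exact ⟨le_rfl, by omega, hA'⟩
      · exact hm k hk) t c (w + 1) (by omega)]
    have h2 := HI_ord_le (show j ≤ d by omega) (bt J (cm c a t) (w + 1)) (I ∩ insert a A) 1 hA' ms
    rw [HI_bt_lw (by omega) (cm c a t) w (inter_subset_right.trans hA') ms hm] at h2
    have h3 : (HI d j (bt J (cm c a t) w) (insert a (I ∩ A)) ms : ℤ) -
        vd j (insert a (I ∩ A)) (cm c a t) (∑ l ∈ range J, cm c a t l + w) ms ≤ 0 :=
      hX t ht ht0 j (by omega)
    rw [← hI12] at h3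
    have h4 : (HI d j (bt J (cm c a t) (w + 1)) (I ∩ insert a A) (.ord 1 (insert a A) ::ₘ ms) : ℤ) ≤
      HI d j (bt J (cm c a t) w) (I ∩ insert a A) ms := by exact_mod_cast h2
    have h5 : ∑ l ∈ range J, cm c a t l + w = n - t - 1 := by omega
    rw [h5] at h3
    linarith
  have key := avs (c' := c') hD hx hxD (bt J c (w + 1)) (I := I) (i := a) hAz ms
  have h1 := hg c' le_rfl (by omega) (D + 1 - x) le_rfl
  have h2 : ∑ t ∈ range c', ∑ s ∈ range (D + 1 - x),
      (gz d (bt J c (w + 1)) ms (insert a A) ((range J).erase a) s (I ∩ insert a A) (t + 1) : ℤ) ≤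
        ∑ t ∈ range c', ∑ s ∈ range (D + 1 - x),
          vd s (I ∩ insert a A) (cm c a (t + 1)) (n - (t + 1) - 1) ms := by
    refine sum_le_sum fun t ht => sum_le_sum fun s hs => ?_
    rw [mem_range] at ht hs
    exact hg (t + 1) ht (Or.inl (by omega)) s (by omega)
  have h3 := vd_av (c := c) (n := n) (c' := c') haJ haI1 hI1 (by omega) ms (D - x) hc'
  have h4 : D - x + 1 = D + 1 - x := by omega
  rw [h4, ← hI12] at h3
  show (c' : ℤ) * ((HI d D (bt J c (w + 1)) I (.ord x A ::ₘ ms) : ℤ) -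
      vd D I c n (.ord x A ::ₘ ms)) ≤
    (c' - 1 : ℤ) * ((HI d D (bt J c (w + 1)) I (.ord x (insert a A) ::ₘ ms) : ℤ) -
      vd D I c n (.ord x (insert a A) ::ₘ ms)) +
    ((HI d D (bt J c (w + 1)) I (.ord (x - 1) (insert a A) ::ₘ ms) : ℤ) -
      vd D I c n (.ord (x - 1) (insert a A) ::ₘ ms))
  rw [vd_cons D I c _ ms x A hxD, vd_cons D I c _ ms x (insert a A) hxD,
    vd_cons D I c _ ms (x - 1) (insert a A) (by omega)]
  have h5 : D - (x - 1) = D + 1 - x := by omega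
  rw [h5]
  nlinarith [key, h1, h2, h3]

/-- The replacement of an ordinary object. -/
theorem av {d J D : ℕ} {σ : St} {I : Finset ℕ} (hD : D ≤ d) (hI : I ⊆ range J)
    (hm : ∀ k ∈ σ.ms, k.Ok d J) {x : ℕ} {A : Finset ℕ} {a c' : ℕ} (hx : 2 ≤ x) (hxD : x ≤ D)
    (hA : A ⊆ range J) (ha : a ∈ I) (haA : a ∉ A) (hc1 : 1 ≤ c') (hc2 : c' < σ.c a) (hw : 2 ≤ σ.w)
    (h1 : ∀ t ≤ c', ∀ s ≤ 1, ∀ D' ≤ D - x + 1, ((σ.lo a t).lw s).Ex d J (insert a (I ∩ A)) D')
    (h2 : ∀ t ≤ c', ∀ s ≤ 1, ∀ D' ≤ D - x, ((σ.lo a t).lw s).Ex d J (I ∩ A) D') :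
    (c' : ℤ) * (σ.ad (.ord x A)).dl d J I D ≤
      (c' - 1 : ℤ) * (σ.ad (.ord x (insert a A))).dl d J I D +
        (σ.ad (.ord (x - 1) (insert a A))).dl d J I D := by
  refine av_ub hD hI hm hx hxD hA ha haA hc2.le (by omega) fun t ht _ D' hD' => ?_
  have h3 := h1 t ht 1 le_rfl D' hD'
  unfold St.Ex at h3
  unfold St.dl
  rw [h3, sub_self]

end AV

end Pool.Agent.GD.AL
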