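import Pool.Agent.H94.LP7.M38
import Pool.Agent.H94.LP7.M44
import Pool.Agent.H94.LP7.M60

/-!
# General d, ALPHA, part C: the form of `CL2` for states

`St.cl2`: the defect of a state with a cluster of `k` members on the whole `(range J).erase i` and
`(c - 1) (k - 1)` points of the same kind is at most `1 / c` times the combination `(c - 1, 1)` of the defects
of the states with the points on `range J` of the exponents `e` and `e - 1` and `c (k - 1)` points of the kind of
the members, if the lower defects are `≤ 0`.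
-/

set_option autoImplicit false
set_option linter.unusedSectionVars false

namespace Pool.Agent.GD.AL

open Finset

section

variable {d J D : ℕ} {σ : St} {I : Finset ℕ}

theorem tri_ok {i : ℕ} {k k' : Kd} (hk : k.Ok d J) (h : k' ∈ tri i k) : k'.Ok d J := by
  cases k with
  | ord e A =>
    by_cases hA : i ∈ A
    · simp only [tri, if_pos hA, Multiset.mem_singleton] at h
      rw [h]
      exact hk
    · simp only [tri, if_neg hA] at h
      exact absurd h (Multiset.notMem_zero _)
  | cl e dl j As =>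
    obtain ⟨he, hlen, htr, hj, hAs⟩ := hk
    have hne : As ≠ [] := fun h => by rw [h] at hlen; simp at hlen
    have h1 : e ≤ d := by
      unfold trx at htr
      have h2 : 1 * (e - 1) ≤ As.length * (e - 1) := Nat.mul_le_mul_right _ hlen
      omega
    by_cases hij : j = i
    · simp only [tri, if_pos hij, Multiset.mem_singleton] at h
      rw [h]
      refine ⟨?_, htr, fun x hx => ?_⟩
      · unfold trx
        omega
      · obtain ⟨A, hA⟩ := List.exists_mem_of_ne_nil As hne
        exact mem_of_mem_erase (hAs A hA ((mem_interL.1 hx).2 A hA))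
    · simp only [tri, if_neg hij] at h
      by_cases hall : ∀ A ∈ As, i ∈ A
      · rw [if_pos hall, Multiset.mem_singleton] at h
        rw [h]
        exact ⟨he, hlen, htr, hj, hAs⟩
      · rw [if_neg hall, Multiset.mem_coe, List.mem_map] at h
        obtain ⟨A, hA, rfl⟩ := h
        exact ⟨by omega, h1, (hAs A (List.mem_filter.1 hA).1).trans (erase_subset _ _)⟩

theorem li_ok {i : ℕ} (hm : ∀ k ∈ σ.ms, k.Ok d J) : ∀ k ∈ (σ.li i).ms, k.Ok d J := by
  intro k hk
  obtain ⟨k', hk', h⟩ := Multiset.mem_bind.1 hk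
  exact tri_ok (hm k' hk') h

theorem n_li {i : ℕ} (hi : i < J) : (σ.li i).n J = σ.n J - σ.c i := by
  unfold St.n St.li
  have h1 := sum_update_of_mem (mem_range.2 hi) σ.c 0
  have h2 := add_sum_erase (range J) σ.c (mem_range.2 hi)
  simp only
  rw [h1, sdiff_singleton_eq_erase]
  omega

/-- The dimension of the trace. -/
theorem H_li (hD : D ≤ d) {i : ℕ} (hi : i < J) (hI : I ⊆ range J) (hm : ∀ k ∈ σ.ms, k.Ok d J) :
    HI d D (fun s : {s : Vr J σ.c σ.w // bt J σ.c σ.w s ≠ i} => bt J σ.c σ.w s.1) I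
      (σ.ms.bind (tri i)) = (σ.li i).H d J I D := by
  classical
  refine St.H_eq (σ := σ.li i) hD _ ?_ ?_ hI fun k hk => ok_blk (li_ok hm k hk)
  · rw [n_li hi]
    have h1 := Fintype.card_subtype_compl (fun s : Vr J σ.c σ.w => bt J σ.c σ.w s = i)
    rw [Fintype.card_subtype (fun s : Vr J σ.c σ.w => bt J σ.c σ.w s = i), card_bt _ _ hi,
      card_Vr] at h1
    exact h1
  · intro j hj
    show _ = Function.update σ.c i 0 j
    by_cases hji : j = i
    · subst hji
      rw [Function.update_self, card_eq_zero]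
      refine eq_empty_of_forall_notMem fun s hs => ?_
      exact s.2 (mem_filter.1 hs).2
    · rw [Function.update_of_ne hji, ← card_bt (J := J) σ.c σ.w hj]
      refine card_bij (fun s _ => s.1) ?_ ?_ ?_
      · intro s hs
        exact mem_filter.2 ⟨mem_univ _, (mem_filter.1 hs).2⟩
      · intro s _ s' _ h
        exact Subtype.ext h
      · intro s hs
        have h1 := (mem_filter.1 hs).2
        exact ⟨⟨s, fun h => hji (h1.symm.trans h)⟩, mem_filter.2 ⟨mem_univ _, h1⟩, rfl⟩

theorem V_lI {i : ℕ} (hi : i < J) (hiI : i ∉ I) :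
    vd D I σ.c (σ.n J - σ.c i) (σ.ms.bind (tri i)) = (σ.li i).V J I D := by
  unfold St.V
  rw [n_li hi]
  exact vd_congr_c fun j hj => (Function.update_of_ne (fun h => hiI (by rw [← h]; exact hj)) _ _).symm

theorem lo_lo' (σ : St) (a t : ℕ) : (σ.lo a 1).lo a t = σ.lo a (t + 1) := by
  unfold St.lo
  simp only [Function.update_self, Function.update_idem]
  rw [Nat.sub_sub, Nat.add_comm 1 t]

/-- Killing `t` vectors of a block. -/
theorem H_kills (hd : 1 ≤ d) (hD : D ≤ d) {a : ℕ} (ha : a < J) (hI : I ⊆ range J) (t : ℕ) (σ : St)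
    (hc : t ≤ σ.c a) (hm : ∀ k ∈ σ.ms, k.Ok d J) :
    HI d D (bt J σ.c σ.w) I (Multiset.replicate t (.ord 1 ((range J).erase a)) + σ.ms) =
      (σ.lo a t).H d J I D := by
  induction t generalizing σ with
  | zero =>
    rw [Multiset.replicate_zero, zero_add]
    unfold St.lo
    rw [Nat.sub_zero, Function.update_eq_self]
    rfl
  | succ t ih =>
    have h1 := St.H_kill (σ := σ.wm (Multiset.replicate t (.ord 1 ((range J).erase a)) + σ.ms))
      (D := D) hD ha (show 1 ≤ σ.c a by omega) hI (by
      intro k hk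
      rcases Multiset.mem_add.1 hk with hk | hk
      · rw [Multiset.eq_of_mem_replicate hk]
        exact ⟨le_rfl, hd, erase_subset _ _⟩
      · exact hm k hk)
    have h2 := ih (σ.lo a 1) (by
      show t ≤ Function.update σ.c a (σ.c a - 1) a
      rw [Function.update_self]
      omega) hm
    rw [lo_lo'] at h2
    rw [Multiset.replicate_succ, Multiset.cons_add]
    exact h1.trans h2

theorem V_kills {a : ℕ} (ha : a < J) (hI : I ⊆ range J) (t : ℕ) (σ : St) (hc : t ≤ σ.c a) :
    vd D I σ.c (σ.n J) (Multiset.replicate t (.ord 1 ((range J).erase a)) + σ.ms) =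
      (σ.lo a t).V J I D := by
  induction t generalizing σ with
  | zero =>
    rw [Multiset.replicate_zero, zero_add]
    unfold St.lo
    rw [Nat.sub_zero, Function.update_eq_self]
    rfl
  | succ t ih =>
    have h1 := St.V_kill (σ := σ.wm (Multiset.replicate t (.ord 1 ((range J).erase a)) + σ.ms))
      (D := D) ha (show 1 ≤ σ.c a by omega) hI
    have h2 := ih (σ.lo a 1) (by
      show t ≤ Function.update σ.c a (σ.c a - 1) a
      rw [Function.update_self]
      omega)
    rw [lo_lo'] at h2
    rw [Multiset.replicate_succ, Multiset.cons_add]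
    exact h1.trans h2

/-- A killed `W`-vector and `t` killed vectors of a block. -/
theorem H_kill3 (hd : 1 ≤ d) (hD : D ≤ d) {a : ℕ} (ha : a < J) (hI : I ⊆ range J) (t : ℕ)
    (hc : t ≤ σ.c a) (hw : 1 ≤ σ.w) (hm : ∀ k ∈ σ.ms, k.Ok d J) :
    HI d D (bt J σ.c σ.w) I (.ord 1 (range J) ::ₘ
      (Multiset.replicate t (.ord 1 ((range J).erase a)) + σ.ms)) =
      ((σ.lo a t).lw 1).H d J I D := by
  have h1 := St.H_killw (σ := σ.wm (Multiset.replicate t (.ord 1 ((range J).erase a)) + σ.ms))
    (D := D) hD hw hI (by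
      intro k hk
      rcases Multiset.mem_add.1 hk with hk | hk
      · rw [Multiset.eq_of_mem_replicate hk]
        exact ⟨le_rfl, hd, erase_subset _ _⟩
      · exact hm k hk)
  exact h1.trans (H_kills hd hD ha hI t (σ.lw 1) hc hm)

theorem V_kill3 {a : ℕ} (ha : a < J) (hI : I ⊆ range J) (t : ℕ) (hc : t ≤ σ.c a) (hw : 1 ≤ σ.w) :
    vd D I σ.c (σ.n J) (.ord 1 (range J) ::ₘ
      (Multiset.replicate t (.ord 1 ((range J).erase a)) + σ.ms)) =
      ((σ.lo a t).lw 1).V J I D := by
  have h1 := St.V_killw (σ := σ.wm (Multiset.replicate t (.ord 1 ((range J).erase a)) + σ.ms))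
    (D := D) hw hI
  exact h1.trans (V_kills ha hI t (σ.lw 1) hc)

theorem fin_arith {c H0 H1 H2 H3 X Y V0 V1 V2 V3 X' Y' : ℤ}
    (g1 : c * H0 ≤ (c - 1) * H1 + H2 + (H3 + (X + c * Y)))
    (g2 : c * V0 = (c - 1) * V1 + V2 + (V3 + X' + c * Y')) (S1 : H3 ≤ V3) (S2 : X ≤ X')
    (S4 : c * Y ≤ c * Y') : c * (H0 - V0) ≤ (c - 1) * (H1 - V1) + (H2 - V2) := by
  rw [mul_sub, g2, mul_sub]
  linarith

end

end Pool.Agent.GD.AL
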