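import Pool.Agent.H94.LP7.GD.AL.CSt2
import Pool.Agent.H94.LP7.GD.AL.ClW0
import Pool.Agent.H94.LP7.M73

/-!
# General d, ALPHA, part C: the form of `CL2` for states

`St.cl2`: the defect of a state with a cluster of `k` members on the whole `(range J).erase i` and
`(c - 1) (k - 1)` points of the same kind is at most `1 / c` times the combination `(c - 1, 1)` of the defects
of the states with the points on `range J` of the exponents `e` and `e - 1` and `c (k - 1)` points of the kind of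
the members, if the lower defects are `≤ 0`.
-/

set_option autoImplicit false
set_option linter.unusedSectionVars false

namespace Pool.Agent.GD.AL

open Finset

section

variable {d J D : ℕ} {σ : St} {I : Finset ℕ}

/-- `CL2`: the clusters whose members vanish on all blocks but `i`; `S` = the state without the members of
the other `c - 1` groups. -/
theorem St.cl2 (hD : D ≤ d) (hI : I ⊆ range J) {e i k c : ℕ} {B : Finset ℕ}
    (hB : B = (range J).erase i) (hm : ∀ k ∈ σ.ms, k.Ok d J)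
    (hk : AdmC d J e (.cl e 0 i (List.replicate k B))) (hk2 : 2 ≤ k) (hi : i ∈ I) (hc1 : 1 ≤ c)
    (heD : e ≤ D + 1) (hc : c * (k - 1) < σ.c i) (hw : 1 ≤ σ.w)
    (hdl : ∀ e' dl' As, .cl e' dl' i As ∈ σ.ms → dl' = 0)
    (h1 : ∀ t, 1 ≤ t → t ≤ c → ∀ s, s + e ≤ D + 1 →
      ((((σ.wm (Multiset.replicate ((c - t) * (k - 1)) (.ord e B) + σ.ms)).lo i (t * (k - 1))).lw 1)).dl
        d J I s ≤ 0)
    (h2 : ∀ s, s + e ≤ D → ((σ.li i).lw 1).dl d J (I.erase i) s ≤ 0) :
    (c : ℤ) * (σ.wm (.cl e 0 i (List.replicate k B) ::ₘ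
        (Multiset.replicate ((c - 1) * (k - 1)) (.ord e B) + σ.ms))).dl d J I D ≤
      (c - 1 : ℤ) * (σ.wm (.ord e (range J) ::ₘ
        (Multiset.replicate (c * (k - 1)) (.ord e B) + σ.ms))).dl d J I D +
      (σ.wm (.ord (e - 1) (range J) ::ₘ
        (Multiset.replicate (c * (k - 1)) (.ord e B) + σ.ms))).dl d J I D := by
  subst hB
  obtain ⟨he, -, htr, hiJ, -⟩ := hk.ok
  obtain ⟨E, rfl⟩ : ∃ E, e = E + 1 := ⟨e - 1, by omega⟩
  obtain ⟨l, rfl⟩ : ∃ l, k = l + 1 := ⟨k - 1, by omega⟩
  rw [Nat.add_sub_cancel] at hc h1 ⊢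
  rw [Nat.add_sub_cancel]
  have hE : 1 ≤ E := by omega
  have hED : E ≤ D := by omega
  have hl : 1 ≤ l := by omega
  have hd : 1 ≤ d := by omega
  rw [List.length_replicate] at htr
  have hlE : (l + 1) * E + 1 ≤ d := htr
  have hld : l + 1 ≤ d := by nlinarith
  have hEd : E + 1 ≤ d := by nlinarith
  have hiB : i ∉ (range J).erase i := notMem_erase i _
  have hins : insert i ((range J).erase i) = range J := insert_erase (mem_range.2 hiJ)
  have hIB : I.erase i ⊆ (range J).erase i := erase_subset_erase i hI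
  have hIe : I.erase i ⊆ range J := (erase_subset _ _).trans hI
  have hrep : List.replicate (l + 1) ((range J).erase i) =
      List.replicate l ((range J).erase i) ++ [(range J).erase i] := List.replicate_succ'
  -- the inequality and the identity
  have g1 := AL.cl2 (β := bt J σ.c σ.w) (c := c) (l := l) hD hE hED hl hld hi hiB hIB
    (hins.le.trans le_rfl) σ.ms hm fun k hk e' dl' As h => hdl e' dl' As (h ▸ hk)
  have g2 := vd_cl2 (d := d) (J := J) (l := l) hED hc1 hi hiB hIB (hins.le.trans le_rfl) hd σ.c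
    (σ.n J) σ.ms hm
  rw [hins] at g1 g2
  have ok1 : ∀ t : ℕ, ∀ k ∈ Multiset.replicate ((c - t) * l) (Kd.ord (E + 1) ((range J).erase i)) +
      σ.ms, k.Ok d J := by
    intro t k hk
    rcases Multiset.mem_add.1 hk with hk | hk
    · rw [Multiset.eq_of_mem_replicate hk]
      exact ⟨by omega, hEd, erase_subset _ _⟩
    · exact hm k hk
  -- the groups
  have G : ∀ t, 1 ≤ t → t ≤ c → ∀ s, s + (E + 1) ≤ D + 1 →
      (HI d s (bt J σ.c σ.w) I (.ord 1 (range J) ::ₘ
        (Multiset.replicate (t * l) (.ord 1 ((range J).erase i)) +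
          (Multiset.replicate ((c - t) * l) (.ord (E + 1) ((range J).erase i)) + σ.ms))) : ℤ) ≤
      vd s I σ.c (σ.n J) (.ord 1 (range J) ::ₘ
        (Multiset.replicate (t * l) (.ord 1 ((range J).erase i)) +
          (Multiset.replicate ((c - t) * l) (.ord (E + 1) ((range J).erase i)) + σ.ms))) := by
    intro t ht htc s hs
    have htl : t * l ≤ σ.c i := (Nat.mul_le_mul_right l htc).trans hc.le
    have e1 := H_kill3 (σ := σ.wm (Multiset.replicate ((c - t) * l)
      (Kd.ord (E + 1) ((range J).erase i)) + σ.ms)) (d := d) (D := s) hd (by omega) hiJ hI (t * l)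
      htl hw (ok1 t)
    have e2 := V_kill3 (σ := σ.wm (Multiset.replicate ((c - t) * l)
      (Kd.ord (E + 1) ((range J).erase i)) + σ.ms)) (D := s) hiJ hI (t * l) htl hw
    have e3 := h1 t ht htc s hs
    unfold St.dl at e3
    rw [← e1, ← e2] at e3
    exact sub_nonpos.1 e3
  -- the trace
  have G2 : ∀ r, r + (E + 1) ≤ D →
      (HI d r (fun s : {s : Vr J σ.c σ.w // bt J σ.c σ.w s ≠ i} => bt J σ.c σ.w s.1) (I.erase i)
        ((Kd.ord 1 (range J) ::ₘ σ.ms).bind (tri i)) : ℤ) ≤
      vd r (I.erase i) σ.c (σ.n J - σ.c i) ((Kd.ord 1 (range J) ::ₘ σ.ms).bind (tri i)) := by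
    intro r hr
    have hok' : ∀ k ∈ (σ.ad (.ord 1 (range J))).ms, k.Ok d J := by
      intro k hk
      rcases Multiset.mem_cons.1 hk with rfl | hk
      · exact ⟨le_rfl, hd, Subset.rfl⟩
      · exact hm k hk
    have e1 := H_li (σ := σ.ad (.ord 1 (range J))) (D := r) (by omega) hiJ hIe hok'
    have e2 := V_lI (σ := σ.ad (.ord 1 (range J))) (D := r) hiJ (notMem_erase i I)
    have e4 : (σ.ad (.ord 1 (range J))).li i = (σ.li i).ad (.ord 1 (range J)) := by
      unfold St.li St.ad
      simp only [Multiset.cons_bind, tri, if_pos (mem_range.2 hiJ), Multiset.singleton_add]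
    have e5 := St.H_killw (σ := σ.li i) (D := r) (by omega) hw hIe (li_ok hm)
    have e6 := St.V_killw (σ := σ.li i) (D := r) hw hIe
    have e3 := h2 r hr
    unfold St.dl at e3
    rw [← e5, ← e6, ← e4, ← e1, ← e2] at e3
    exact sub_nonpos.1 e3
  -- the sums
  have S1 := G c hc1 le_rfl (D - E) (by omega)
  rw [Nat.sub_self, Nat.zero_mul, Multiset.replicate_zero, zero_add] at S1
  have S2 : (∑ t ∈ range c, ∑ r ∈ range (D - E), (rr l E (D - E - r) : ℤ) *
      (HI d r (bt J σ.c σ.w) I (.ord 1 (range J) ::ₘ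
        (Multiset.replicate ((t + 1) * l) (.ord 1 ((range J).erase i)) +
        (Multiset.replicate ((c - (t + 1)) * l) (.ord (E + 1) ((range J).erase i)) + σ.ms))) : ℤ)) ≤
      ∑ t ∈ range c, ∑ r ∈ range (D - E), (rr l E (D - E - r) : ℤ) *
      vd r I σ.c (σ.n J) (.ord 1 (range J) ::ₘ
        (Multiset.replicate ((t + 1) * l) (.ord 1 ((range J).erase i)) +
        (Multiset.replicate ((c - (t + 1)) * l) (.ord (E + 1) ((range J).erase i)) + σ.ms))) := by
    refine sum_le_sum fun t ht => sum_le_sum fun r hr => ?_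
    rw [mem_range] at ht hr
    exact mul_le_mul_of_nonneg_left (G (t + 1) (by omega) (by omega) r (by omega))
      (Nat.cast_nonneg _)
  have S3 : (∑ r ∈ range (D - E), ((rr l E (D - E - r) - 1 : ℕ) : ℤ) *
      (HI d r (fun s : {s : Vr J σ.c σ.w // bt J σ.c σ.w s ≠ i} => bt J σ.c σ.w s.1) (I.erase i)
        ((Kd.ord 1 (range J) ::ₘ σ.ms).bind (tri i)) : ℤ)) ≤
      ∑ r ∈ range (D - E), ((rr l E (D - E - r) - 1 : ℕ) : ℤ) *
      vd r (I.erase i) σ.c (σ.n J - σ.c i) ((Kd.ord 1 (range J) ::ₘ σ.ms).bind (tri i)) := by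
    refine sum_le_sum fun r hr => ?_
    rw [mem_range] at hr
    exact mul_le_mul_of_nonneg_left (G2 r (by omega)) (Nat.cast_nonneg _)
  have S4 := mul_le_mul_of_nonneg_left S3 (Nat.cast_nonneg c : (0 : ℤ) ≤ (c : ℤ))
  have K0 : ∀ X : Multiset Kd, (σ.wm X).dl d J I D = (HI d D (bt J σ.c σ.w) I X : ℤ) -
    vd D I σ.c (σ.n J) X := fun X => rfl
  rw [hrep, K0, K0, K0]
  simp only [Nat.cast_add, Nat.cast_sum, Nat.cast_mul] at g1
  exact fin_arith g1 g2 S1 S2 S4

end

end Pool.Agent.GD.AL
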