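import Pool.Agent.H94.LP7.GD.AL.Ph2d
import Pool.Agent.H94.LP7.M79

/-!
# General d, ALPHA, part C: phase 2 (the clusters for `CL2`)
-/

set_option autoImplicit false

namespace Pool.Agent.GD.AL

open Finset

section

variable {d J D e : ℕ} {σ : St} {I : Finset ℕ} {c0 : ℕ → ℕ} {n0 : ℕ} {η ϖ θ : ℝ}

theorem Hr.mono2 {F F' : (ℕ → ℕ) → ℕ} {i : ℕ} (h : ∀ f, F' f ≤ F f) (hr : Hr i J F c0) :
    Hr i J F' c0 := fun l h1 h2 => (h _).trans (hr l h1 h2)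

theorem inC_mono {θ' : ℝ} (h : θ' ≤ θ) (hi : InC d J e c0 n0 ϖ θ' I σ) :
    InC d J e c0 n0 ϖ θ I σ := ⟨hi.c, hi.c', hi.n, hi.w, hi.adm, hi.om.trans h⟩

theorem p2_fin {A0 n a t E κ : ℝ} (hA0 : 0 ≤ A0) (hA : A0 ≤ n) (ht : κ ≤ t) (ha : a ≤ A0 * Real.exp (-t))
    (hE : n * Real.exp (-κ) < 1) : a < 1 := by
  have h1 : Real.exp (-t) ≤ Real.exp (-κ) := Real.exp_le_exp.2 (by linarith)
  have h2 : A0 * Real.exp (-t) ≤ n * Real.exp (-κ) :=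
    mul_le_mul hA h1 (Real.exp_pos _).le (hA0.trans hA)
  linarith

theorem p2_fin2 {A n η v x Λ : ℝ} (hA : 0 < A) (hn : 0 ≤ n) (hη : 0 ≤ η) (hv : η * A ≤ v)
    (hx : 16 * (Λ * x) ≤ η) :
    η / 128 * n ≤ 1 / 16 * n / A * (v - Λ * A * x - 3 / 4 * η * A) := by
  have h1 : η / 8 * A ≤ v - Λ * A * x - 3 / 4 * η * A := by
    have h2 : 16 * (Λ * x) * A ≤ η * A := mul_le_mul_of_nonneg_right hx hA.le
    nlinarith
  have h3 : 0 ≤ 1 / 16 * n / A := by positivity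
  have h4 := mul_le_mul_of_nonneg_left h1 h3
  have h5 : 1 / 16 * n / A * (η / 8 * A) = η / 128 * n := by
    field_simp
    ring
  linarith

theorem xp_in (hD : D ≤ d) (hXC : ∀ s < D, XC d J e s) (hXO : ∀ s ≤ D, XO d J s)
    (hη : 0 < η) (hη1 : η ≤ 1) (hϖ : 0 < ϖ) (hϖ1 : ϖ ≤ 1) : ∃ θ : ℝ, 0 < θ ∧ ∃ F : (ℕ → ℕ) → ℕ,
    ∀ c0 : ℕ → ℕ, Hr 0 J F c0 → ∃ n1 : ℕ, ∀ n0, n1 ≤ n0 → ∀ (σ : St) (I : Finset ℕ),
      I ⊆ range J → InC d J e c0 n0 ϖ θ I σ →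
      (∀ k ∈ σ.ms, AdmO d J k ∨ ∃ i ∈ I, ∃ m, 2 ≤ m ∧
        k = .cl e 0 i (List.replicate m ((range J).erase i))) →
      IP J e c0 ((D + 1) * d) σ.ms → Pos J c0 n0 η σ I D → σ.dl d J I D ≤ 0 := by
  classical
  obtain ⟨θu, hθu, Fu, hFu⟩ := ph2_up (e := e) hD (fun s hs => hXO s hs.le) hη hη1 hϖ
  obtain ⟨θl, hθl, Fl, hFl⟩ := ph2_low hD hXC (η := η / 2) (ϖ := ϖ) (by positivity) (by linarith) hϖ
  obtain ⟨Fo, hFo⟩ := hXO D le_rfl (η / 2) ϖ (by positivity) hϖ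
  obtain ⟨q, hq⟩ : ∃ q, q = η * ϖ / (128 * ((d : ℝ) + 1)) := ⟨_, rfl⟩
  obtain ⟨m0, hm0⟩ : ∃ m0, m0 = 4 / q + 128 / η + 1 := ⟨_, rfl⟩
  obtain ⟨Λ, hΛ⟩ : ∃ Λ, Λ = 128 / q := ⟨_, rfl⟩
  have hq0 : 0 < q := by rw [hq]; positivity
  have hΛ0 : 0 < Λ := by rw [hΛ]; positivity
  obtain ⟨θ, hθ⟩ : ∃ θ, θ = min (min θu θl) (min (η / 200) (η / (16 * Λ))) := ⟨_, rfl⟩
  have hθ0 : 0 < θ := by
    rw [hθ]
    exact lt_min (lt_min hθu hθl) (lt_min (by positivity) (by positivity))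
  have hθ1 : θ ≤ θu := by rw [hθ]; exact (min_le_left _ _).trans (min_le_left _ _)
  have hθ2 : θ ≤ θl := by rw [hθ]; exact (min_le_left _ _).trans (min_le_right _ _)
  have hθ3 : 200 * θ ≤ η := by
    have h1 : θ ≤ η / 200 := by rw [hθ]; exact (min_le_right _ _).trans (min_le_left _ _)
    linarith
  have hθ4 : 16 * (Λ * θ) ≤ η := by
    have h1 : θ ≤ η / (16 * Λ) := by rw [hθ]; exact (min_le_right _ _).trans (min_le_right _ _)
    rw [le_div_iff₀ (by positivity)] at h1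
    linarith
  have hm01 : 1 ≤ m0 := by
    rw [hm0]
    have : 0 ≤ 4 / q + 128 / η := by positivity
    linarith
  obtain ⟨n2, hn2⟩ := ex_big d (κ := η / 128) (by positivity)
  refine ⟨θ, hθ0, fun f => Fu f + Fl f + Fo f + ⌈m0⌉₊, fun c0 hHr => ?_⟩
  obtain ⟨nu, hnu⟩ := hFu c0 (hHr.mono2 fun f => by omega)
  obtain ⟨nl, hnl⟩ := hFl c0 (hHr.mono2 fun f => by omega)
  obtain ⟨no, hno⟩ := hFo c0 (hHr.mono2 fun f => by omega)
  refine ⟨nu + nl + no + n2 + ⌈m0 * (1 + ∑ l ∈ range J, (c0 l : ℝ))⌉₊, fun n0 hn0 σ I hI hin hk hip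
    hpos => ?_⟩
  have hR : Rf J c0 n0 m0 := by
    refine ⟨fun l hl => ?_, ?_⟩
    · have h1 : ⌈m0⌉₊ ≤ c0 l := by
        have h2 : Fu (rs (l + 1) J c0) + Fl (rs (l + 1) J c0) + Fo (rs (l + 1) J c0) + ⌈m0⌉₊ ≤
            c0 l := hHr l (Nat.zero_le _) hl
        omega
      exact (Nat.le_ceil m0).trans (by exact_mod_cast h1)
    · have h1 : ⌈m0 * (1 + ∑ l ∈ range J, (c0 l : ℝ))⌉₊ ≤ n0 := by omega
      exact (Nat.le_ceil _).trans (by exact_mod_cast h1)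
  have hR1 : Rf J c0 n0 1 := hR.mono2 hm01
  have hS0 : (0 : ℝ) ≤ ∑ l ∈ range J, (c0 l : ℝ) := sum_nonneg fun _ _ => Nat.cast_nonneg _
  have hn1 : (1 : ℝ) ≤ n0 := by
    have := hR1.n
    linarith
  have hn1' : 1 ≤ n0 := by exact_mod_cast hn1
  by_cases hID : I.card ≤ D
  swap
  · have h1 : σ.V J I D = 0 := V_lowC (e := e) hI hin.adm (by omega)
    have h2 : σ.H d J I D = 0 := St.H_low (by omega)
    unfold St.dl
    rw [h1, h2]
    simp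
  have hA0 : 0 < nz c0 n0 I D :=
    lt_of_lt_of_le one_pos (nz_pos (fun l hl => hR1.c l (mem_range.1 (hI hl))) hn1' D)
  -- the ordinary states
  have hord : ∀ ms : Multiset Kd, (∀ k ∈ ms, AdmO d J k) → PosL J c0 n0 (η / 2) (σ.wm ms) I D →
      3 / 4 * η * nz c0 n0 I D ≤ ((σ.wm ms).V J I D : ℝ) → (σ.wm ms).dl d J I D ≤ 0 := by
    intro ms h1 h2 h3
    have h4 := hno n0 (by omega) (σ.wm ms) I hI ⟨hin.c, hin.c', hin.n, hin.w, h1⟩
      (pos_of h2 (by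
        have h5 : 0 ≤ η * nz c0 n0 I D := by positivity
        linarith))
    unfold St.Ex at h4
    unfold St.dl
    rw [h4, sub_self]
  have hkd : ∀ k ∈ σ.ms, K2 d J e I k := by
    intro k hk'
    by_cases h1 : AdmO d J k
    · exact Or.inl h1
    · refine Or.inr ⟨(hin.adm k hk').resolve_left h1, (hk k hk').resolve_left h1⟩
  have hvD := hpos I Subset.rfl D hID (by rw [sdiff_self]; simp)
  have hG : G2 d J e c0 n0 ((D + 1) * d) (η / 2) θ I D σ σ.ms := by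
    refine ⟨hkd, hip, hin.om, posL_mono (by linarith) (posL_of hpos), ?_⟩
    have h1 : (0 : ℝ) ≤ σ.V J I D := le_trans (by positivity) hvD
    exact_mod_cast h1
  by_cases hcl : ∀ k ∈ σ.ms, AdmO d J k
  · have h1 : 0 ≤ η * nz c0 n0 I D := by positivity
    exact hord σ.ms hcl hG.pos (by
      show 3 / 4 * η * nz c0 n0 I D ≤ (σ.V J I D : ℝ)
      linarith)
  push Not at hcl
  obtain ⟨k₀, hk₀, hk₀'⟩ := hcl
  have he : 2 ≤ e := by
    obtain ⟨dl, i, As, rfl, h1, -⟩ := (hin.adm k₀ hk₀).resolve_left hk₀'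
    exact h1
  have key := pot (fun ms : Multiset Kd => (ms.map nc).sum)
    (G2 d J e c0 n0 ((D + 1) * d) (η / 2) θ I D σ)
    (a2 J c0 n0 Λ I D σ) (fun ms => ((σ.wm ms).dl d J I D : ℝ))
    (thr := 3 / 4 * η * nz c0 n0 I D) (X := 1 / 16 * (n0 : ℝ) ^ (e - 1) / nz c0 n0 I D)
    (T := nz c0 n0 I D) (by positivity) hA0.le ?_ ?_ σ.ms hG
  · -- the end
    have hAn : nz c0 n0 I D ≤ (n0 : ℝ) ^ d := by
      unfold nz
      have h1 : ∏ l ∈ I, (c0 l : ℝ) ≤ (n0 : ℝ) ^ I.card := by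
        rw [← prod_const]
        refine prod_le_prod (fun _ _ => Nat.cast_nonneg _) fun l hl => ?_
        have h2 := hR1.n
        have h3 := single_le_sum (f := fun l => (c0 l : ℝ)) (fun _ _ => Nat.cast_nonneg _) (hI hl)
        linarith
      calc (∏ l ∈ I, (c0 l : ℝ)) * (n0 : ℝ) ^ (D - I.card) ≤
            (n0 : ℝ) ^ I.card * (n0 : ℝ) ^ (D - I.card) :=
              mul_le_mul_of_nonneg_right h1 (by positivity)
        _ = (n0 : ℝ) ^ D := by rw [← pow_add, Nat.add_sub_cancel' hID]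
        _ ≤ (n0 : ℝ) ^ d := pow_le_pow_right₀ hn1 hD
    have hnn : (n0 : ℝ) ≤ (n0 : ℝ) ^ (e - 1) := le_self_pow₀ hn1 (by omega)
    have h1 : η / 128 * (n0 : ℝ) ≤ 1 / 16 * (n0 : ℝ) ^ (e - 1) / nz c0 n0 I D *
        (a2 J c0 n0 Λ I D σ σ.ms - 3 / 4 * η * nz c0 n0 I D) := by
      have h2 := p2_fin2 (Λ := Λ) (x := (σ.ms.map (om c0 n0 J)).sum) hA0
        (show (0 : ℝ) ≤ (n0 : ℝ) ^ (e - 1) by positivity) hη.le hvD (by
          have h3 := mul_le_mul_of_nonneg_left hin.om hΛ0.le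
          linarith)
      have h3 : η / 128 * (n0 : ℝ) ≤ η / 128 * (n0 : ℝ) ^ (e - 1) :=
        mul_le_mul_of_nonneg_left hnn (by positivity)
      exact h3.trans h2
    have h2 := p2_fin (E := 0) hA0.le hAn h1 key (hn2 n0 (by omega))
    have h3 : σ.dl d J I D < 1 := by
      have h4 : (((σ.wm σ.ms).dl d J I D : ℤ) : ℝ) < 1 := h2
      exact_mod_cast h4
    omega
  · -- the trivial bound
    intro ms hG'
    have h1 : (((σ.wm ms).H d J I D : ℕ) : ℝ) ≤ nz c0 n0 I D :=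
      St.H_le hD hI (fun l _ => hin.c l) hin.n hID
    have h2 : (0 : ℝ) ≤ (σ.wm ms).V J I D := by exact_mod_cast hG'.top
    show (((σ.wm ms).dl d J I D : ℤ) : ℝ) ≤ _
    unfold St.dl
    push_cast
    linarith
  · -- the step
    intro ms hG' hthr
    have hv : 3 / 4 * η * nz c0 n0 I D ≤ ((σ.wm ms).V J I D : ℝ) := by
      refine hthr.trans ?_
      unfold a2
      have h1 : 0 ≤ Λ * nz c0 n0 I D * (ms.map (om c0 n0 J)).sum :=
        mul_nonneg (mul_nonneg hΛ0.le hA0.le) (om_sum_nonneg ms)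
      linarith
    by_cases hcl : ∀ k ∈ ms, AdmO d J k
    · left
      have h1 := hord ms hcl hG'.pos hv
      show (((σ.wm ms).dl d J I D : ℤ) : ℝ) ≤ 0
      exact_mod_cast h1
    · right
      push Not at hcl
      exact g2_step hD hI hID hη hη1 hϖ hϖ1 hq hm0 hΛ hR hθ0.le hθ3 hin.c hin.c' hin.n hin.w
        (fun σ I h1 h2 h3 h4 h5 => hnu n0 (by omega) σ I h1 h2 (inC_mono hθ1 h3) h4 h5)
        (fun σ I h1 i k c h2 h3 h4 h5 h6 h7 h8 h9 h10 h11 =>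
          hnl n0 (by omega) σ I h1 i k c h2 h3 h4 h5 h6 h7 (inC_mono hθ2 h8) h9 h10 h11)
        hG' hv hcl

end

/-- Phase 2. -/
theorem xp_of {d J e D : ℕ} (hD : D ≤ d) (hXC : ∀ s < D, XC d J e s) (hXO : ∀ s ≤ D, XO d J s) :
    XP d J e D := by
  intro η ϖ hη hϖ
  obtain ⟨θ, hθ, F, hF⟩ := xp_in hD hXC hXO (η := min η 1) (ϖ := min ϖ 1) (lt_min hη one_pos)
    (min_le_right _ _) (lt_min hϖ one_pos) (min_le_right _ _)
  refine ⟨θ, hθ, F, fun c0 hHr => ?_⟩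
  obtain ⟨n1, hn1⟩ := hF c0 hHr
  refine ⟨n1, fun n0 hn0 σ I hI hin hk hip hpos => ?_⟩
  refine hn1 n0 hn0 σ I hI ⟨hin.c, fun l hl => ?_, hin.n, ?_, hin.adm, hin.om⟩ hk hip
    (pos_mono (min_le_left _ _) hpos)
  · exact (mul_le_mul_of_nonneg_right (min_le_left _ _) (Nat.cast_nonneg _)).trans (hin.c' l hl)
  · exact (mul_le_mul_of_nonneg_right (min_le_left _ _) (Nat.cast_nonneg _)).trans hin.w

end Pool.Agent.GD.AL
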