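import Pool.Agent.H94.LP7.GD.AL.CSt2_1
import Pool.Agent.H94.LP7.M77

/-!
# General d, ALPHA, part C: phase 2, the step
-/

set_option autoImplicit false

namespace Pool.Agent.GD.AL

open Finset

section

variable {d J D e : ℕ} {σ : St} {I : Finset ℕ} {c0 : ℕ → ℕ} {n0 : ℕ} {η ϖ θ : ℝ}

theorem wm_wm (σ : St) (S T : Multiset Kd) : (σ.wm S).wm T = σ.wm T := rfl

theorem wm_ms (σ : St) (S : Multiset Kd) : (σ.wm S).ms = S := rfl

theorem p2_avg {g a b x : ℝ} (hg : 0 < g) (h : g * x ≤ (g - 1) * a + b) :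
    x ≤ (1 - 1 / g) * a + 1 / g * b := by
  have h1 : (1 - 1 / g) * a + 1 / g * b = ((g - 1) * a + b) / g := by
    field_simp
  rw [h1, le_div_iff₀ hg]
  linarith only [h]

theorem p2_y {A n c Λ : ℝ} (hA : 0 < A) (hn : 0 < n) (hc : 0 < c) :
    1 / 16 * n / A * -(Λ / 2 * A * (1 / (c * n))) = -(Λ / (32 * c)) := by
  field_simp
  ring

theorem p2_z {A n : ℝ} (hA : 0 < A) (hn : 0 < n) : 1 / 16 * n / A * (4 * A / n) = 1 / 4 := by
  field_simp
  ring

theorem p2_w {A n c Λ m : ℝ} (hA : 0 ≤ A) (hn : 0 < n) (hc : 0 < c) (hm : 0 < m)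
    (h : 8 * c ≤ Λ * m) : 4 * A / (n * m) ≤ Λ / 2 * A * (1 / (c * n)) := by
  rw [mul_one_div, div_le_div_iff₀ (by positivity) (by positivity)]
  have h6 := mul_le_mul_of_nonneg_left h (mul_nonneg hA hn.le)
  linarith only [h6]

/-- The potential. -/
noncomputable def a2 (J : ℕ) (c0 : ℕ → ℕ) (n0 : ℕ) (Λ : ℝ) (I : Finset ℕ) (D : ℕ) (σ : St)
    (ms : Multiset Kd) : ℝ :=
  ((σ.wm ms).V J I D : ℝ) - Λ * nz c0 n0 I D * (ms.map (om c0 n0 J)).sum

/-- The main step of phase 2. -/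
theorem g2_step {q m0 Λ : ℝ} (hD : D ≤ d) (hI : I ⊆ range J) (hID : I.card ≤ D) (hη : 0 < η)
    (hη1 : η ≤ 1) (hϖ : 0 < ϖ) (hϖ1 : ϖ ≤ 1) (hq : q = η * ϖ / (128 * (d + 1)))
    (hm0 : m0 = 4 / q + 128 / η + 1) (hΛ : Λ = 128 / q) (hR : Rf J c0 n0 m0)
    (hθ0 : 0 ≤ θ) (hθ : 200 * θ ≤ η) (hc : ∀ l, σ.c l ≤ c0 l)
    (hc' : ∀ l ∈ I, ϖ * c0 l ≤ (σ.c l : ℝ)) (hn : σ.n J ≤ n0) (hw : ϖ * n0 ≤ (σ.w : ℝ))
    (hup : ∀ (σ : St) (I : Finset ℕ), I ⊆ range J → I.card ≤ D →
      InC d J e c0 n0 ϖ θ I σ → PosL J c0 n0 (η / 2) σ I D →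
      3 / 4 * η * nz c0 n0 I D ≤ (σ.V J I D : ℝ) → PosL J c0 n0 (9 / 16 * η) σ I D)
    (hlow : ∀ (σ : St) (I : Finset ℕ), I ⊆ range J →
      ∀ (i k c : ℕ), i ∈ I → 2 ≤ k →
        AdmC d J e (.cl e 0 i (List.replicate k ((range J).erase i))) → 1 ≤ c →
        (64 * d * c : ℝ) ≤ min (η / 2) ϖ * c0 i → e ≤ D + 1 →
        InC d J e c0 n0 ϖ θ I (σ.wm (.cl e 0 i (List.replicate k ((range J).erase i)) ::ₘ
          (Multiset.replicate ((c - 1) * (k - 1)) (.ord e ((range J).erase i)) + σ.ms))) →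
        (∀ k' ∈ .cl e 0 i (List.replicate k ((range J).erase i)) ::ₘ
          (Multiset.replicate ((c - 1) * (k - 1)) (.ord e ((range J).erase i)) + σ.ms),
          AdmO d J k' ∨ ∃ i ∈ I, ∃ m, 2 ≤ m ∧
            k' = .cl e 0 i (List.replicate m ((range J).erase i))) →
        IP J e c0 ((D + 1) * d) (.cl e 0 i (List.replicate k ((range J).erase i)) ::ₘ
          (Multiset.replicate ((c - 1) * (k - 1)) (.ord e ((range J).erase i)) + σ.ms)) →
        PosL J c0 n0 (η / 2) (σ.wm (.cl e 0 i (List.replicate k ((range J).erase i)) ::ₘ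
          (Multiset.replicate ((c - 1) * (k - 1)) (.ord e ((range J).erase i)) + σ.ms))) I D →
        (c * (k - 1) < σ.c i ∧ 1 ≤ σ.w) ∧
        (∀ t, 1 ≤ t → t ≤ c → ∀ s, s + e ≤ D + 1 →
          ((((σ.wm (Multiset.replicate ((c - t) * (k - 1)) (.ord e ((range J).erase i)) +
            σ.ms)).lo i (t * (k - 1))).lw 1)).dl d J I s ≤ 0) ∧
        (∀ s, s + e ≤ D → ((σ.li i).lw 1).dl d J (I.erase i) s ≤ 0))
    {ms : Multiset Kd} (hG : G2 d J e c0 n0 ((D + 1) * d) (η / 2) θ I D σ ms)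
    (hv : 3 / 4 * η * nz c0 n0 I D ≤ ((σ.wm ms).V J I D : ℝ)) (hcl : ∃ k ∈ ms, ¬ AdmO d J k) :
    ∃ (s₀ s₁ : Multiset Kd) (p : ℝ), 0 ≤ p ∧ p ≤ 1 ∧
      G2 d J e c0 n0 ((D + 1) * d) (η / 2) θ I D σ s₀ ∧
      G2 d J e c0 n0 ((D + 1) * d) (η / 2) θ I D σ s₁ ∧
      (s₀.map nc).sum < (ms.map nc).sum ∧ (s₁.map nc).sum < (ms.map nc).sum ∧
      ((σ.wm ms).dl d J I D : ℝ) ≤ (1 - p) * ((σ.wm s₀).dl d J I D : ℝ) +
        p * ((σ.wm s₁).dl d J I D : ℝ) ∧
      (1 - p) * Real.exp (1 / 16 * (n0 : ℝ) ^ (e - 1) / nz c0 n0 I D *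
          (a2 J c0 n0 Λ I D σ ms - a2 J c0 n0 Λ I D σ s₀)) +
        p * Real.exp (1 / 16 * (n0 : ℝ) ^ (e - 1) / nz c0 n0 I D *
          (a2 J c0 n0 Λ I D σ ms - a2 J c0 n0 Λ I D σ s₁)) ≤ 1 := by
  classical
  obtain ⟨k, hk, hkn⟩ := hcl
  rcases hG.kd k hk with h | ⟨hkC, i, hi, m, hm, rfl⟩
  · exact absurd h hkn
  have hinC : InC d J e c0 n0 ϖ θ I (σ.wm ms) :=
    ⟨hc, hc', hn, hw, fun k hk => (hG.kd k hk).adm, hG.om⟩
  obtain ⟨he, -, htr, hiJ, -⟩ : (Kd.cl e 0 i (List.replicate m ((range J).erase i))).Ok d J :=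
    hkC.ok
  have hBm : (range J).erase i ∈ List.replicate m ((range J).erase i) :=
    List.mem_replicate.2 ⟨by omega, rfl⟩
  have hBo : AdmO d J (.ord e ((range J).erase i)) := adm_mem hkC hBm
  set B := (range J).erase i with hB
  rw [List.length_replicate] at htr
  have htr' : m * (e - 1) + 1 ≤ d := by unfold trx at htr; omega
  have hmd : m ≤ d := by
    have : m * 1 ≤ m * (e - 1) := Nat.mul_le_mul_left _ (by omega)
    omega
  have hed : e ≤ d := by
    have : 2 * (e - 1) ≤ m * (e - 1) := Nat.mul_le_mul_right _ hm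
    omega
  obtain ⟨X, rfl⟩ := Multiset.exists_cons_of_mem hk
  have hXk : ∀ k ∈ X, K2 d J e I k := fun k hk => hG.kd k (Multiset.mem_cons_of_mem hk)
  have hXa : ∀ k ∈ X, AdmO d J k ∨ AdmC d J e k := fun k hk => (hXk k hk).adm
  -- constants
  have hd0 : (0 : ℝ) < 128 * (d + 1) := by positivity
  have hq0 : 0 < q := by rw [hq]; positivity
  have hηϖ : η * ϖ ≤ 1 := by nlinarith only [hη1, hη, hϖ1]
  have hdR : (1 : ℝ) ≤ d := by exact_mod_cast (show 1 ≤ d by omega)
  have hq1 : q ≤ 1 / 128 := by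
    rw [hq, div_le_div_iff₀ hd0 (by norm_num)]
    nlinarith only [hηϖ, hdR]
  have hΛ8 : 8 ≤ Λ := by
    rw [hΛ, le_div_iff₀ hq0]
    linarith only [hq0, hq1]
  have hm01 : 1 ≤ m0 := by
    rw [hm0]
    have : 0 ≤ 4 / q + 128 / η := by positivity
    linarith only [this]
  have hm0η : 2 / m0 ≤ η / 64 := by
    rw [div_le_div_iff₀ (by linarith only [hq0, hq1, hm01]) (by norm_num)]
    have h1 : 128 / η ≤ m0 := by
      rw [hm0]
      have : 0 ≤ 4 / q := by positivity
      linarith only [hq0, hq1, this]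
    have h2 : 128 ≤ m0 * η := (div_le_iff₀ hη).1 h1
    linarith only [h2]
  have hR1 : Rf J c0 n0 1 := hR.mono2 hm01
  have hS0 : (0 : ℝ) ≤ ∑ l ∈ range J, (c0 l : ℝ) := sum_nonneg fun _ _ => Nat.cast_nonneg _
  have hn1 : (1 : ℝ) ≤ n0 := by
    have := hR1.n
    linarith only [hS0, this]
  have hn1' : 1 ≤ n0 := by exact_mod_cast hn1
  have hcn : (c0 i : ℝ) ≤ n0 := by
    have h1 := hR1.n
    have h2 := single_le_sum (f := fun l => (c0 l : ℝ)) (fun _ _ => Nat.cast_nonneg _)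
      (mem_range.2 hiJ)
    linarith only [hq0, hq1, h1, h2]
  have hc0 : m0 ≤ (c0 i : ℝ) := hR.c i hiJ
  have hc01 : (1 : ℝ) ≤ c0 i := hm01.trans hc0
  have hqc : 4 ≤ q * c0 i := by
    have h1 : 4 / q ≤ (c0 i : ℝ) := by
      refine le_trans ?_ hc0
      rw [hm0]
      have : 0 ≤ 128 / η := by positivity
      linarith only [hq0, hq1, this]
    have h2 := (div_le_iff₀ hq0).1 h1
    linarith only [h2]
  have hA0 : 0 < nz c0 n0 I D :=
    lt_of_lt_of_le one_pos (nz_pos (fun l hl => hR1.c l (mem_range.1 (hI hl))) hn1' D)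
  have hθ1 : 3 * θ ≤ η / 2 := by linarith only [hη, hθ]
  have hθ2 : 3 * θ ≤ 1 := by linarith only [hη1, hθ, hq0, hq1]
  have h916 := hup (σ.wm (Kd.cl e 0 i (List.replicate m B) ::ₘ X)) I hI hID hinC hG.pos hv
  have hnp : (0 : ℝ) < (n0 : ℝ) ^ (e - 1) := by positivity
  have hXp : 0 ≤ 1 / 16 * (n0 : ℝ) ^ (e - 1) / nz c0 n0 I D := by positivity
  have hsumk : ((Kd.cl e 0 i (List.replicate m B) ::ₘ X).map (om c0 n0 J)).sum =
      1 / ((c0 i : ℝ) * (n0 : ℝ) ^ (e - 1)) + (X.map (om c0 n0 J)).sum := by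
    rw [Multiset.map_cons, Multiset.sum_cons, hB, om_pl2 hm]
  have hω : 0 ≤ 1 / ((c0 i : ℝ) * (n0 : ℝ) ^ (e - 1)) := by positivity
  have hnck : ((Kd.cl e 0 i (List.replicate m B) ::ₘ X).map nc).sum = 1 + (X.map nc).sum := by
    rw [Multiset.map_cons, Multiset.sum_cons]
    rfl
  by_cases heD : e ≤ D + 1
  · -- the main case
    set g := ⌊q * c0 i⌋₊ with hg
    have hg2 : 2 ≤ g := Nat.le_floor (by push_cast; linarith only [hq0, hq1, hqc])
    have hgle : (g : ℝ) ≤ q * c0 i := Nat.floor_le (by linarith only [hq0, hq1, hqc])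
    have hgge : q * c0 i / 2 ≤ g := by
      have := Nat.lt_floor_add_one (q * (c0 i : ℝ))
      linarith only [hq0, hq1, hqc, this]
    have hgR : (2 : ℝ) ≤ g := by exact_mod_cast hg2
    have hgc : g ≤ c0 i := by
      have h1 : (g : ℝ) ≤ c0 i := by
        refine hgle.trans ?_
        nlinarith only [hq0, hq1, hqc]
      exact_mod_cast h1
    have hcnt : (D + 1) * d * c0 i ≤ X.count (.ord e B) := by
      have h1 := hG.ip i hiJ ⟨m, hm, Multiset.mem_cons_self _ _⟩
      rwa [Multiset.count_cons_of_ne (by intro h; cases h)] at h1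
    have hmul : (g - 1) * (m - 1) ≤ X.count (.ord e B) := by
      refine le_trans ?_ hcnt
      have h1 : (g - 1) * (m - 1) ≤ c0 i * d := Nat.mul_le_mul (by omega) (by omega)
      have h2 : c0 i * d ≤ (D + 1) * (c0 i * d) := Nat.le_mul_of_pos_left _ (Nat.succ_pos D)
      calc (g - 1) * (m - 1) ≤ (D + 1) * (c0 i * d) := h1.trans h2
        _ = (D + 1) * d * c0 i := by ring
    obtain ⟨S, hS⟩ := Multiset.le_iff_exists_add.1 (Multiset.le_count_iff_replicate_le.1 hmul)
    have hSX : S ≤ X := by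
      rw [hS]
      exact Multiset.le_add_left _ _
    have hXS : ∀ k ∈ S, K2 d J e I k := fun k hk => hXk k (Multiset.mem_of_le hSX hk)
    have hkinds : ∀ k' ∈ Kd.cl e 0 i (List.replicate m B) ::ₘ X, AdmO d J k' ∨
        ∃ i ∈ I, ∃ m, 2 ≤ m ∧ k' = .cl e 0 i (List.replicate m ((range J).erase i)) :=
      fun k' hk' => (hG.kd k' hk').imp id fun h => h.2
    have hg64 : (64 * d * g : ℝ) ≤ min (η / 2) ϖ * c0 i := by
      have h1 : 64 * (d : ℝ) * g ≤ 64 * d * (q * c0 i) :=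
        mul_le_mul_of_nonneg_left hgle (by positivity)
      have h2 : 64 * (d : ℝ) * q ≤ min (η / 2) ϖ := by
        have h3 : 64 * (d : ℝ) * q = (d / (d + 1)) * (η * ϖ / 2) := by
          rw [hq]
          field_simp
          ring
        have h4 : (d : ℝ) / (d + 1) ≤ 1 := by
          rw [div_le_one (by positivity)]
          linarith only [hq0, hq1]
        have h5 : 0 ≤ η * ϖ / 2 := by positivity
        rw [h3]
        refine (mul_le_mul_of_nonneg_right h4 h5).trans ?_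
        rw [one_mul]
        refine le_min ?_ ?_
        · nlinarith only [hη, hϖ1]
        · nlinarith only [hϖ, hη1]
      have h3 : 64 * (d : ℝ) * q * c0 i ≤ min (η / 2) ϖ * c0 i :=
        mul_le_mul_of_nonneg_right h2 (by linarith only [hq0, hq1, hm01, hc0])
      calc (64 * d * g : ℝ) ≤ 64 * d * (q * c0 i) := h1
        _ = 64 * d * q * c0 i := by ring
        _ ≤ _ := h3
    obtain ⟨⟨hgc1, hw1⟩, hl1, hl2⟩ := hlow (σ.wm S) I hI i m g hi hm hkC (by omega) hg64 heD
      (by rw [wm_ms, wm_wm, ← hB, ← hS]; exact hinC)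
      (by rw [wm_ms, ← hB, ← hS]; exact hkinds)
      (by rw [wm_ms, ← hB, ← hS]; exact hG.ip)
      (by rw [wm_ms, wm_wm, ← hB, ← hS]; exact hG.pos)
    have hC := St.cl2 (σ := σ.wm S) (d := d) (J := J) (D := D) (I := I) hD hI (e := e) (i := i)
      (k := m) (c := g) (B := B) hB (fun k hk => (hXS k hk).ok) hkC hm hi (by omega) heD hgc1 hw1
      (fun e' dl' As h => by
        rcases hXS _ h with ⟨x, A, h1, -⟩ | ⟨-, i', -, m', -, h1⟩
        · cases h1
        · exact (Kd.cl.inj h1).2.1) hl1 hl2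
    have hRR : Multiset.replicate (g * (m - 1)) (Kd.ord e B) + S =
        Multiset.replicate (m - 1) (.ord e B) + X := by
      rw [hS, ← add_assoc, ← Multiset.replicate_add]
      congr 2
      obtain ⟨g', hg'⟩ : ∃ g', g = g' + 1 := ⟨g - 1, by omega⟩
      rw [hg', Nat.add_sub_cancel]
      ring
    rw [wm_ms, wm_wm, wm_wm, wm_wm, hRR, ← hS] at hC
    set R := Multiset.replicate (m - 1) (Kd.ord e B) + X with hRdef
    have hmmb : mmb (.cl e 0 i (List.replicate m B)) = Multiset.replicate m (.ord e B) := by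
      show (((List.replicate m B).map (Kd.ord e) : List Kd) : Multiset Kd) = _
      rw [List.map_replicate, Multiset.coe_replicate]
    have hFR : Fam (Kd.cl e 0 i (List.replicate m B) ::ₘ X) R :=
      fam_one (by rw [hmmb]; exact (Multiset.replicate_le_replicate _).2 (Nat.sub_le m 1))
    have hFX : Fam (Kd.cl e 0 i (List.replicate m B) ::ₘ X) X :=
      fam_le (Multiset.le_cons_self _ _)
    have hRk : ∀ k ∈ R, K2 d J e I k := by
      intro k hk
      rcases Multiset.mem_add.1 hk with h | h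
      · rw [Multiset.eq_of_mem_replicate h]
        exact Or.inl hBo
      · exact hXk k h
    have hRa : ∀ k ∈ R, AdmO d J k ∨ AdmC d J e k := fun k hk => (hRk k hk).adm
    have hka : ∀ k ∈ Kd.cl e 0 i (List.replicate m B) ::ₘ X, AdmO d J k ∨ AdmC d J e k :=
      fun k hk => (hG.kd k hk).adm
    have hbX := cmp_bp hR1 hI hD hc hn hka hG.om (by linarith only [hη]) hθ1 hθ2 hG.pos hFX
    have hbR := cmp_bp hR1 hI hD hc hn hka hG.om (by linarith only [hη]) hθ1 hθ2 hG.pos hFR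
    have hV := p2_V (σ := σ) hR1 hI hID hXa he hed hi hm (by linarith only [hη, hθ]) hbX hbR
    have hsR : (R.map (om c0 n0 J)).sum = (X.map (om c0 n0 J)).sum := by
      rw [hRdef, Multiset.map_add, Multiset.sum_add, om_rep, zero_add]
    have hsN : ∀ x : ℕ, ((Kd.ord x (range J) ::ₘ R).map (om c0 n0 J)).sum =
        (X.map (om c0 n0 J)).sum := by
      intro x
      rw [Multiset.map_cons, Multiset.sum_cons, hsR]
      exact zero_add _
    have hncN : ∀ x : ℕ, ((Kd.ord x (range J) ::ₘ R).map nc).sum = (X.map nc).sum := by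
      intro x
      rw [Multiset.map_cons, Multiset.sum_cons, hRdef, Multiset.map_add, Multiset.sum_add, nc_rep]
      show 0 + (0 + _) = _
      rw [zero_add, zero_add]
    have hGN : ∀ x : ℕ, 1 ≤ x → x ≤ d →
        G2 d J e c0 n0 ((D + 1) * d) (η / 2) θ I D σ (Kd.ord x (range J) ::ₘ R) := by
      intro x hx hxd
      have hxo : AdmO d J (.ord x (range J)) :=
        ⟨x, range J, rfl, hx, hxd, Subset.rfl, by rw [sdiff_self]; simp⟩
      have hst := p2_stay hm01 hR hI hD hc hn hka hRa hG.om (by linarith only [hη]) hθ1 hθ2 hG.pos hFR hxo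
      have h32 : 3 * θ + 2 / m0 ≤ η / 32 := by linarith only [hη, hθ, hm0η]
      refine ⟨?_, ?_, ?_, ?_, ?_⟩
      · intro k hk
        rcases Multiset.mem_cons.1 hk with rfl | h
        · exact Or.inl hxo
        · exact hRk k h
      · refine ip_of hG.ip (fun i' As h => ?_) fun A => ?_
        · rcases Multiset.mem_cons.1 h with h | h
          · cases h
          · rcases Multiset.mem_add.1 h with h | h
            · cases Multiset.eq_of_mem_replicate h
            · exact Multiset.mem_cons_of_mem h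
        · rw [Multiset.count_cons_of_ne (by intro h; cases h)]
          exact Multiset.count_le_of_le _
            ((Multiset.le_add_left X _).trans (Multiset.le_cons_self _ _))
      · have := hG.om
        rw [hsumk] at this
        rw [hsN]
        linarith only [hω, this]
      · intro I' hI' D' h1 h2 h3
        have h4 := hst I' hI' D' h1 h3
        have h5 := h916 I' hI' D' h1 h2 h3
        have h6 := nz_nn2 c0 n0 I' D'
        have h7 : (3 * θ + 2 / m0) * nz c0 n0 I' D' ≤ η / 32 * nz c0 n0 I' D' :=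
          mul_le_mul_of_nonneg_right h32 h6
        have h8 : 0 ≤ η * nz c0 n0 I' D' := mul_nonneg hη.le h6
        linarith only [h4, h5, h7, h8]
      · have h4 := hst I Subset.rfl D hID (by rw [sdiff_self]; simp)
        have h7 : (3 * θ + 2 / m0) * nz c0 n0 I D ≤ η / 32 * nz c0 n0 I D :=
          mul_le_mul_of_nonneg_right h32 hA0.le
        have h8 : 0 ≤ η * nz c0 n0 I D := mul_nonneg hη.le hA0.le
        have h9 : (0 : ℝ) ≤ (σ.wm (Kd.ord x (range J) ::ₘ R)).V J I D := by linarith only [hv, h4, h7, h8]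
        exact_mod_cast h9
    have hpg : (1 : ℝ) / g ≤ 1 / 2 := by
      rw [div_le_div_iff₀ (by linarith only [hq0, hq1, hqc, hgge]) (by norm_num)]
      linarith only [hqc, hgge]
    refine ⟨Kd.ord e (range J) ::ₘ R, Kd.ord (e - 1) (range J) ::ₘ R, 1 / g, by positivity,
      by linarith only [hq0, hq1, hpg], hGN e (by omega) hed, hGN (e - 1) (by omega) (by omega), ?_, ?_, ?_, ?_⟩
    · rw [hncN, hnck]
      omega
    · rw [hncN, hnck]
      omega
    · have h1 : (g : ℝ) * ((σ.wm (Kd.cl e 0 i (List.replicate m B) ::ₘ X)).dl d J I D : ℝ) ≤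
          ((g : ℝ) - 1) * ((σ.wm (Kd.ord e (range J) ::ₘ R)).dl d J I D : ℝ) +
            ((σ.wm (Kd.ord (e - 1) (range J) ::ₘ R)).dl d J I D : ℝ) := by exact_mod_cast hC
      exact p2_avg (by linarith only [hq0, hq1, hqc, hgge]) h1
    · refine p2_exp (y := Λ / (32 * c0 i)) (z := 1 / 4) (by positivity) hpg (by positivity) ?_
        (by norm_num) (by norm_num) ?_ ?_ ?_
      · rw [hΛ, div_div, div_le_one (by positivity)]
        linarith only [hqc]
      · have h1 : a2 J c0 n0 Λ I D σ (Kd.cl e 0 i (List.replicate m B) ::ₘ X) -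
            a2 J c0 n0 Λ I D σ (Kd.ord e (range J) ::ₘ R) ≤
            -(Λ / 2 * nz c0 n0 I D * (1 / ((c0 i : ℝ) * (n0 : ℝ) ^ (e - 1)))) := by
          unfold a2
          rw [hsumk, hsN]
          have h2 : 4 * nz c0 n0 I D / (n0 : ℝ) ^ e ≤
              Λ / 2 * nz c0 n0 I D * (1 / ((c0 i : ℝ) * (n0 : ℝ) ^ (e - 1))) := by
            have h3 : (n0 : ℝ) ^ e = (n0 : ℝ) ^ (e - 1) * n0 := by
              rw [← pow_succ]
              congr 1
              omega
            have h4 : 8 * (c0 i : ℝ) ≤ Λ * n0 := by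
              have h5 : 8 * (c0 i : ℝ) ≤ 8 * n0 := by linarith only [hcn]
              have h6 : 8 * (n0 : ℝ) ≤ Λ * n0 := mul_le_mul_of_nonneg_right hΛ8 (by linarith only [hq0, hq1, hn1])
              linarith only [hcn, h6]
            rw [h3]
            exact p2_w hA0.le hnp (by linarith only [hq0, hq1, hm01, hc0]) (by linarith only [hq0, hq1, hn1]) h4
          have h3 := hV.1
          linarith only [hV, h2]
        exact (mul_le_mul_of_nonneg_left h1 hXp).trans (le_of_eq (p2_y hA0 hnp (by linarith only [hq0, hq1, hm01, hc0])))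
      · have h1 : a2 J c0 n0 Λ I D σ (Kd.cl e 0 i (List.replicate m B) ::ₘ X) -
            a2 J c0 n0 Λ I D σ (Kd.ord (e - 1) (range J) ::ₘ R) ≤
            4 * nz c0 n0 I D / (n0 : ℝ) ^ (e - 1) := by
          unfold a2
          rw [hsumk, hsN]
          have h3 := hV.2
          have h4 : 0 ≤ Λ * nz c0 n0 I D * (1 / ((c0 i : ℝ) * (n0 : ℝ) ^ (e - 1))) :=
            mul_nonneg (mul_nonneg (by linarith only [hq0, hq1, hΛ8]) hA0.le) hω
          linarith only [hV, h4]
        exact (mul_le_mul_of_nonneg_left h1 hXp).trans (le_of_eq (p2_z hA0 hnp))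
      · rw [hΛ, div_div]
        have h1 : 8 * (1 / (g : ℝ) * (1 / 4)) = 2 / g := by ring
        rw [h1, div_le_div_iff₀ (by linarith only [hq0, hq1, hqc, hgge]) (by positivity)]
        nlinarith only [hgge]
  · -- the cluster has no effect
    have hXG : G2 d J e c0 n0 ((D + 1) * d) (η / 2) θ I D σ X := by
      refine ⟨hXk, ?_, ?_, ?_, ?_⟩
      · refine ip_of hG.ip (fun _ _ h => Multiset.mem_cons_of_mem h) fun A => ?_
        rw [Multiset.count_cons_of_ne (by intro h; cases h)]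
      · have := hG.om
        rw [hsumk] at this
        linarith only [hω, this]
      · intro I' hI' D' h1 h2 h3
        have h4 := hG.pos I' hI' D' h1 h2 h3
        rwa [hB, p2_void hI hi (by omega) X hI' (by omega)] at h4
      · have h4 := hG.top
        rwa [hB, p2_void hI hi (by omega) X Subset.rfl (by omega)] at h4
    have hVX : (σ.wm (Kd.cl e 0 i (List.replicate m B) ::ₘ X)).V J I D = (σ.wm X).V J I D := by
      rw [hB, p2_void hI hi (by omega) X Subset.rfl (by omega)]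
    refine ⟨X, X, 0, le_rfl, zero_le_one, hXG, hXG, by omega, by omega, ?_, ?_⟩
    · have h1 : (σ.wm (Kd.cl e 0 i (List.replicate m B) ::ₘ X)).dl d J I D ≤
          (σ.wm X).dl d J I D := by
        unfold St.dl
        rw [hVX]
        have h2 : (σ.wm (Kd.cl e 0 i (List.replicate m B) ::ₘ X)).H d J I D ≤
            (σ.wm X).H d J I D := HI_cons_le D (bt J σ.c σ.w) I _ X
        have h3 : ((σ.wm (Kd.cl e 0 i (List.replicate m B) ::ₘ X)).H d J I D : ℤ) ≤
            (σ.wm X).H d J I D := by exact_mod_cast h2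
        linarith only [h2]
      have h2 : ((σ.wm (Kd.cl e 0 i (List.replicate m B) ::ₘ X)).dl d J I D : ℝ) ≤
          (σ.wm X).dl d J I D := by exact_mod_cast h1
      linarith only [h2]
    · rw [sub_zero, one_mul, zero_mul, add_zero]
      refine Real.exp_le_one_iff.2 (mul_nonpos_of_nonneg_of_nonpos hXp ?_)
      unfold a2
      rw [hVX, hsumk]
      have hΛ0 : 0 ≤ Λ := by linarith only [hq0, hq1, hΛ8]
      have h1 : 0 ≤ Λ * nz c0 n0 I D * (1 / ((c0 i : ℝ) * (n0 : ℝ) ^ (e - 1))) :=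
        mul_nonneg (mul_nonneg hΛ0 hA0.le) hω
      linarith only [h1]

end

end Pool.Agent.GD.AL
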