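import Pool.Agent.H94.LP7.GD.AL.AV_1
import Pool.Agent.H94.LP7.M30
import Pool.Agent.H94.LP7.M44
import Pool.Agent.H94.LP7.M59
import Pool.Agent.H94.LP7.M83

/-!
# General d, ALPHA: transport for ordinary objects

Note 4268 (TR).  `TrC` is the class of the states, `tls` the loss of an object, `twt` its weight (for the
well-founded induction), `tr_step` one step, `tr_ord` the result.
-/

set_option autoImplicit false

namespace Pool.Agent.GD.AL

open Finset

section Tr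

variable {d J D : ℕ} {c0 : ℕ → ℕ} {n0 : ℕ} {I : Finset ℕ}

/-- One step. -/
theorem tr_step {η ϖ ε R lam K X e0 η₁ ϖ₁ : ℝ} {eb : ℕ → ℝ} {N : ℕ} {G : Multiset Kd → Prop}
    {Kp : ℕ → Finset ℕ → Prop} (hη : 0 < η) (hη1 : η ≤ 1) (hϖ : 0 < ϖ) (hϖη : ϖ ≤ η / 2)
    (hI : I ⊆ range J) (hD : D ≤ d) (hID : I.card ≤ D) (hB : Big d J c0 n0 I K)
    (hK : 32 * (d + 1) / η + 4 ≤ K) (hKϖ : 2 / ϖ ≤ K)
    (hG1 : ∀ x A ms, G (.ord x A ::ₘ ms) → G ms)
    (hG2 : ∀ x A a ms, a ∈ range J → a ∉ A → G (.ord x A ::ₘ ms) → G (.ord x (insert a A) ::ₘ ms))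
    (hG3 : ∀ x A a ms, 2 ≤ x → a ∈ I → a ∉ A → G (.ord x A ::ₘ ms) →
      G (.ord (x - 1) (insert a A) ::ₘ ms))
    (hKp : ∀ x T, T ⊆ I → T.card ≤ x → 1 ≤ x → ¬ Kp x T → x = 1 ∨
      ∃ a ∈ T, (N : ℝ) ≤ (∏ l ∈ T.erase a, (c0 l : ℝ)) * (n0 : ℝ) ^ (x - T.card))
    (orc : Orc d J c0 n0 G I D η₁ ϖ₁) (hη₁ : η₁ ≤ η / 2) (hϖ₁ : ϖ₁ ≤ ϖ)
    (hexc : ∀ σ : St, InO d J c0 n0 ϖ I σ → G σ.ms → PosL J c0 n0 (η / 2) σ I D →
      ∀ (x : ℕ) (A : Finset ℕ) (a : ℕ), 2 ≤ x → x ≤ D → A ⊆ range J → (range J \ A).card ≤ x →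
        a ∈ I → a ∉ A → (I ∩ A).card ≤ D - x →
      ∃ c' : ℕ, 1 ≤ c' ∧ c' < σ.c a ∧ η / 2 / 2 * c0 a ≤ c' ∧
        (∀ t ≤ c', ∀ s ≤ 1, ∀ D' ≤ D - x + 1, ((σ.lo a t).lw s).Ex d J (insert a (I ∩ A)) D') ∧
        (∀ t ≤ c', ∀ s ≤ 1, ∀ D' ≤ D - x, ((σ.lo a t).lw s).Ex d J (I ∩ A) D') ∧
        ((σ.V J (insert a (I ∩ A)) (D - x + 1) : ℝ) - σ.V J (insert a (I ∩ A)) (D - x) ≤
          (1 + 3 * ε) * c' * (σ.V J (I ∩ A) (D - x) - σ.V J (insert a (I ∩ A)) (D - x))))
    (hterm : ∀ σ : St, InO d J c0 n0 ϖ₁ I σ → G σ.ms →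
      (∀ k ∈ σ.ms, ∃ x A, k = .ord x A ∧ Kp x (I \ A)) → Pos J c0 n0 η₁ σ I D → σ.dl d J I D ≤ 0)
    (heb0 : ∀ b, 0 ≤ eb b) (heb1 : ∀ b ≤ d, eb b ≤ 1) (hε : 0 ≤ ε) (hR : R = 4 / η)
    (he0 : 1 / K ≤ e0) (he01 : e0 ≤ 1) (hlam1 : lam ≤ 1 / 2)
    (hebs : ∀ b < d, 3 * ε + e0 + R * eb b + (4 + 4 * R) * lam ≤ eb (b + 1))
    (hX : 0 ≤ X) (hN : 0 < N) (hXA : X * nz c0 n0 I D = lam * N)
    {σ : St} (hσ : TrC d J c0 n0 I D G η ϖ σ)
    (hv : 3 / 4 * η * nz c0 n0 I D ≤ tval J c0 n0 I D eb σ) :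
    (σ.dl d J I D : ℝ) ≤ 0 ∨ ∃ (σ₀ σ₁ : St) (p : ℝ), 0 ≤ p ∧ p ≤ 1 ∧
      TrC d J c0 n0 I D G η ϖ σ₀ ∧ TrC d J c0 n0 I D G η ϖ σ₁ ∧ tmu J σ₀ < tmu J σ ∧
      tmu J σ₁ < tmu J σ ∧ (σ.dl d J I D : ℝ) ≤ (1 - p) * σ₀.dl d J I D + p * σ₁.dl d J I D ∧
      (1 - p) * Real.exp (X * (tval J c0 n0 I D eb σ - tval J c0 n0 I D eb σ₀)) +
        p * Real.exp (X * (tval J c0 n0 I D eb σ - tval J c0 n0 I D eb σ₁)) ≤ 1 := by
  classical
  obtain ⟨ho, hGσ, hp, hv0⟩ := hσ
  have hA0 := tr_nz_nonneg c0 n0 I D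
  have hL0 := tr_sum_nonneg (c0 := c0) (n0 := n0) (I := I) (D := D) heb0 σ.ms
  have hV : 3 / 4 * η * nz c0 n0 I D ≤ (σ.V J I D : ℝ) := by
    unfold tval at hv
    linarith only [hv, hL0]
  -- the constant `K`
  have hd1 : (1 : ℝ) ≤ (d : ℝ) + 1 := by
    have : (0 : ℝ) ≤ d := Nat.cast_nonneg d
    linarith only
  have hKη : 8 / η ≤ K := by
    refine le_trans ?_ hK
    have h1 : 8 / η ≤ 32 * (d + 1) / η := by
      apply div_le_div_of_nonneg_right _ hη.le
      linarith only [hη1, hϖ, hϖη]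
    linarith only [hη1, hϖ, hϖη, h1]
  have hK4 : 4 ≤ K := by
    have h1 : 0 ≤ 32 * ((d : ℝ) + 1) / η := by positivity
    linarith only [hK, h1]
  have hK1 : 1 ≤ K := by linarith only [hη1, hϖ, hϖη, hK4]
  have hKn : K ≤ (n0 : ℝ) := by
    refine le_trans ?_ hB.n
    have h1 : (1 : ℝ) ≤ (1 + ∑ l ∈ range J, (c0 l : ℝ)) ^ (d + 1) := by
      apply one_le_pow₀
      have : (0 : ℝ) ≤ ∑ l ∈ range J, (c0 l : ℝ) := sum_nonneg fun _ _ => Nat.cast_nonneg _
      linarith only [this]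
    nlinarith only [h1, hη1, hϖ, hϖη, hK4]
  have hKc := hB.c
  have hKc0 : ∀ l ∈ I, K * (c0 l : ℝ) ≤ n0 := by
    intro l hl
    refine le_trans ?_ hB.n
    refine mul_le_mul_of_nonneg_left ?_ (by linarith only [hη1, hϖ, hϖη, hK4])
    have h1 : (c0 l : ℝ) ≤ ∑ l ∈ range J, (c0 l : ℝ) :=
      single_le_sum (f := fun l => (c0 l : ℝ)) (fun _ _ => Nat.cast_nonneg _) (hI hl)
    have h2 : (1 : ℝ) ≤ 1 + ∑ l ∈ range J, (c0 l : ℝ) := by
      have : (0 : ℝ) ≤ ∑ l ∈ range J, (c0 l : ℝ) := sum_nonneg fun _ _ => Nat.cast_nonneg _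
      linarith only [h1]
    calc (c0 l : ℝ) ≤ 1 + ∑ l ∈ range J, (c0 l : ℝ) := by linarith only [hη1, hϖ, hϖη, h1]
      _ = (1 + ∑ l ∈ range J, (c0 l : ℝ)) ^ 1 := (pow_one _).symm
      _ ≤ _ := pow_le_pow_right₀ h2 (by omega)
  -- the region
  have orc' : Orc d J c0 n0 G I D (η / 2) ϖ := tr_Orc hη₁ hϖ₁ orc
  have hη2 : 0 ≤ η / 2 := by linarith only [hϖ, hϖη]
  obtain ⟨hlb, hex⟩ := lb_orc hD hI ho (tr_G hG1 ho.adm hGσ) hη2 hp orc'
  have hB' : Big d J c0 n0 I (4 * (d + 1) / (η / 8) + 4) := by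
    have h1 : 4 * ((d : ℝ) + 1) / (η / 8) + 4 ≤ K := by
      have h2 : 4 * ((d : ℝ) + 1) / (η / 8) = 32 * (d + 1) / η := by
        field_simp
        ring
      rw [h2]
      exact hK
    refine ⟨fun l hl => h1.trans (hKc l hl), le_trans ?_ hB.n⟩
    exact mul_le_mul_of_nonneg_right h1 (by positivity)
  have hp5 : PosL J c0 n0 (3 / 4 * η - η / 8) σ I D :=
    P1 hD hI hID (by positivity) (by positivity) ho.c ho.n hB' hex hlb hV
  obtain ⟨hc5, hw5⟩ := P1c (η := 3 / 4 * η) (ε := η / 8) hD hI hID (by positivity) (by positivity)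
    ho.c ho.n hB' hex hlb hV
  have h58 : 3 / 4 * η - η / 8 = 5 / 8 * η := by ring
  rw [h58] at hp5 hc5 hw5
  by_cases hall : ∀ k ∈ σ.ms, ∃ x A, k = .ord x A ∧ Kp x (I \ A)
  · left
    have h1 := hterm σ (tr_InO hϖ₁ ho) hGσ hall (fun I' hI' D' h1 h2 => by
      rcases Nat.lt_or_ge D' D with h3 | h3
      · exact (mul_le_mul_of_nonneg_right hη₁ (tr_nz_nonneg _ _ _ _)).trans (hp I' hI' D' h1 h3 h2)
      · have h4 : (I \ I').card = 0 := by omega
        have h5 : I' = I := by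
          refine Subset.antisymm hI' ?_
          rw [← sdiff_eq_empty_iff_subset]
          exact card_eq_zero.1 h4
        have h6 : D' = D := by omega
        subst h5 h6
        refine le_trans (mul_le_mul_of_nonneg_right ?_ hA0) hV
        linarith only [hϖ, hϖη, hη₁])
    exact_mod_cast h1
  right
  push Not at hall
  obtain ⟨k, hk, hkn⟩ := hall
  obtain ⟨x, A, rfl, hx1, hxd, hA, hKx⟩ := ho.adm k hk
  have hKpx : ¬ Kp x (I \ A) := hkn x A rfl
  obtain ⟨ms', hms⟩ := Multiset.exists_cons_of_mem hk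
  obtain ⟨σ', hσ'⟩ : ∃ σ' : St, σ' = σ.wm ms' := ⟨_, rfl⟩
  have hσe : σ = σ'.ad (.ord x A) := by
    rw [hσ']
    show σ = ⟨σ.c, σ.w, .ord x A ::ₘ ms'⟩
    rw [← hms]
  have hσm : σ'.ms = ms' := by rw [hσ']; rfl
  have hσc : σ'.c = σ.c := by rw [hσ']; rfl
  have hσw : σ'.w = σ.w := by rw [hσ']; rfl
  have hle : ms' ≤ σ.ms := by
    rw [hms]
    exact Multiset.le_cons_self _ _
  have hsub : ∀ I' ⊆ I, ∀ D' : ℕ, D' + (I \ I').card ≤ D → σ.V J I' D' ≤ σ'.V J I' D' := by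
    rw [hσ']
    exact V_sub hI ho.adm hη2 hp hle
  have hsub' : ∀ I' ⊆ I, ∀ D' : ℕ, D' + (I \ I').card ≤ D →
      (σ.V J I' D' : ℝ) ≤ (σ'.V J I' D' : ℝ) := fun I' hI' D' h1 => by
    exact_mod_cast hsub I' hI' D' h1
  have ho' : InO d J c0 n0 ϖ I σ' := by
    rw [hσ']
    exact ⟨ho.c, ho.c', ho.n, ho.w, fun k hk => ho.adm k (Multiset.mem_of_le hle hk)⟩
  have hG' : G σ'.ms := by
    rw [hσm]
    rw [hms] at hGσ
    exact hG1 x A _ hGσ
  have hp' : PosL J c0 n0 (η / 2) σ' I D := fun I' hI' D' h1 h2 h3 =>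
    (hp I' hI' D' h1 h2 h3).trans (hsub' I' hI' D' h3)
  have hv' : 0 ≤ σ'.V J I D := hv0.trans (hsub I Subset.rfl D (by simp))
  obtain ⟨-, hex'⟩ := lb_orc hD hI ho' (tr_G hG1 ho'.adm hG') hη2 hp' orc'
  have hσ'C : TrC d J c0 n0 I D G η ϖ σ' := ⟨ho', hG', hp', hv'⟩
  -- sums
  have hmu : tmu J σ = twt J (.ord x A) + tmu J σ' := by
    unfold tmu
    rw [hσm, hms, Multiset.map_cons, Multiset.sum_cons]
  have hmu' : ∀ k : Kd, tmu J (σ'.ad k) = twt J k + tmu J σ' := by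
    intro k
    unfold tmu St.ad
    rw [Multiset.map_cons, Multiset.sum_cons]
  have hval : tval J c0 n0 I D eb σ = (σ.V J I D : ℝ) - tls c0 n0 I D eb (.ord x A) -
      (σ'.ms.map (tls c0 n0 I D eb)).sum := by
    unfold tval
    rw [hσm, hms, Multiset.map_cons, Multiset.sum_cons]
    ring
  have hval' : ∀ k : Kd, tval J c0 n0 I D eb (σ'.ad k) = ((σ'.ad k).V J I D : ℝ) -
      tls c0 n0 I D eb k - (σ'.ms.map (tls c0 n0 I D eb)).sum := by
    intro k
    unfold tval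
    have h1 : (σ'.ad k).ms = k ::ₘ σ'.ms := rfl
    rw [h1, Multiset.map_cons, Multiset.sum_cons]
    ring
  -- a step with one successor
  have one : ∀ σ₀ : St, TrC d J c0 n0 I D G η ϖ σ₀ → tmu J σ₀ < tmu J σ →
      σ.dl d J I D ≤ σ₀.dl d J I D → tval J c0 n0 I D eb σ ≤ tval J c0 n0 I D eb σ₀ →
      ∃ (σ₀ σ₁ : St) (p : ℝ), 0 ≤ p ∧ p ≤ 1 ∧
        TrC d J c0 n0 I D G η ϖ σ₀ ∧ TrC d J c0 n0 I D G η ϖ σ₁ ∧ tmu J σ₀ < tmu J σ ∧
        tmu J σ₁ < tmu J σ ∧ (σ.dl d J I D : ℝ) ≤ (1 - p) * σ₀.dl d J I D + p * σ₁.dl d J I D ∧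
        (1 - p) * Real.exp (X * (tval J c0 n0 I D eb σ - tval J c0 n0 I D eb σ₀)) +
          p * Real.exp (X * (tval J c0 n0 I D eb σ - tval J c0 n0 I D eb σ₁)) ≤ 1 := by
    intro σ₀ h1 h2 h3 h4
    refine ⟨σ₀, σ₀, 0, le_rfl, zero_le_one, h1, h1, h2, h2, ?_, ?_⟩
    · rw [sub_zero, one_mul, zero_mul, add_zero]
      exact_mod_cast h3
    · rw [sub_zero, one_mul, zero_mul, add_zero, Real.exp_le_one_iff]
      exact mul_nonpos_of_nonneg_of_nonpos hX (by linarith only [h4])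
  -- a replaced object
  have hrep : ∀ (x' : ℕ) (A' : Finset ℕ), 1 ≤ x' → x' ≤ d → A' ⊆ range J →
      (range J \ A').card ≤ x' → G (.ord x' A' ::ₘ σ'.ms) →
      TrC d J c0 n0 I D G η ϖ (σ'.ad (.ord x' A')) := by
    intro x' A' h1 h2 h3 h4 h5
    have h6 : ∀ I' ⊆ I, ∀ D' : ℕ, I'.card ≤ D' → D' + (I \ I').card ≤ D →
        (σ.V J I' D' : ℝ) - η / 8 * nz c0 n0 I' D' ≤ ((σ'.ad (.ord x' A')).V J I' D' : ℝ) := by
      intro I' hI' D' h7 h8
      have h9 := V_rep (x := x') (A := A') hD hI ho'.c ho'.n ho'.adm hK1 hKc hKn hex' h1 h4 hI' h7 h8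
      have h10 := hsub' I' hI' D' h8
      have h11 : nz c0 n0 I' D' / K ≤ η / 8 * nz c0 n0 I' D' := by
        rw [div_le_iff₀ (by linarith only [hη1, hϖ, hϖη, hK4])]
        have h12 : 1 ≤ η / 8 * K := by
          have h13 := mul_le_mul_of_nonneg_left hKη (show 0 ≤ η / 8 by positivity)
          have h14 : η / 8 * (8 / η) = 1 := by field_simp
          linarith only [h13, h14]
        have h13 := tr_nz_nonneg c0 n0 I' D'
        nlinarith only [hη1, hϖ, hϖη, h12, h13]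
      linarith only [h9, h10, h11]
    refine ⟨⟨ho'.c, ho'.c', ho'.n, ho'.w, ?_⟩, h5, ?_, ?_⟩
    · intro k hk
      rcases Multiset.mem_cons.1 hk with rfl | hk
      · exact ⟨x', A', rfl, h1, h2, h3, h4⟩
      · exact ho'.adm k hk
    · intro I' hI' D' h7 h8 h9
      have h10 := h6 I' hI' D' h7 h9
      have h11 := hp5 I' hI' D' h7 h8 h9
      linarith only [h10, h11]
    · have h10 := h6 I Subset.rfl D hID (by simp)
      have h11 : (0 : ℝ) ≤ ((σ'.ad (.ord x' A')).V J I D : ℝ) := by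
        have h12 : 0 ≤ η * nz c0 n0 I D := by positivity
        linarith only [hV, h10, h12]
      exact_mod_cast h11
  -- (1) points without effect
  by_cases hdrop : D < x ∨ D - x < (I ∩ A).card
  · obtain ⟨h1, h2⟩ := St.dl_drop hD hI ho'.adm A hdrop
    rw [← hσe] at h1 h2
    refine one σ' hσ'C ?_ ?_ ?_
    · rw [hmu]
      show tmu J σ' < x * (J + 1) + (range J \ A).card + 1 + tmu J σ'
      omega
    · unfold St.dl
      rw [h1, h2]
    · rw [hval, h2]
      unfold tval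
      have h3 := tr_tls_nonneg (c0 := c0) (n0 := n0) (I := I) (D := D) heb0 (.ord x A)
      linarith only [h3]
  push Not at hdrop
  obtain ⟨hxD, hIA⟩ := hdrop
  -- (2) blocks outside of `I`
  by_cases hout : ∃ a ∈ range J, a ∉ I ∧ a ∉ A
  · obtain ⟨a, haJ, haI, haA⟩ := hout
    have h1 : I ∩ A = I ∩ insert a A := (inter_insert_of_notMem haI).symm
    have h2 : I \ insert a A = I \ A := by
      rw [sdiff_insert, erase_eq_of_notMem fun h => haI (mem_sdiff.1 h).1]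
    have hVe : (σ'.ad (.ord x (insert a A))).V J I D = σ.V J I D := by
      rw [hσe, St.V_ord _ hxD, St.V_ord _ hxD, h1]
    have hcard : (range J \ insert a A).card + 1 = (range J \ A).card := by
      rw [sdiff_insert, card_erase_of_mem (mem_sdiff.2 ⟨haJ, haA⟩)]
      have := card_pos.2 ⟨a, mem_sdiff.2 ⟨haJ, haA⟩⟩
      omega
    refine one _ (hrep x (insert a A) hx1 hxd (insert_subset haJ hA) (by omega) ?_) ?_ ?_ ?_
    · refine hG2 x A a _ haJ haA ?_
      rw [hσm, ← hms]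
      exact hGσ
    · rw [hmu, hmu']
      show x * (J + 1) + (range J \ insert a A).card + 1 + tmu J σ' <
        x * (J + 1) + (range J \ A).card + 1 + tmu J σ'
      omega
    · have h3 := St.dl_spec (σ := σ') (J := J) (x := x) hD (subset_insert a A) h1
      rw [← hσe] at h3
      exact h3
    · rw [hval, hval', hVe]
      have h3 : tls c0 n0 I D eb (.ord x (insert a A)) = tls c0 n0 I D eb (.ord x A) := by
        show eb (I \ insert a A).card * (if x ≤ D ∧ (I ∩ insert a A).card ≤ D - x then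
          nz c0 n0 (I ∩ insert a A) (D - x) else 0) = eb (I \ A).card *
          (if x ≤ D ∧ (I ∩ A).card ≤ D - x then nz c0 n0 (I ∩ A) (D - x) else 0)
        rw [h2, ← h1]
      rw [h3]
  push Not at hout
  have hTJ : I \ A = range J \ A := by
    ext l
    rw [mem_sdiff, mem_sdiff]
    constructor
    · rintro ⟨h1, h2⟩
      exact ⟨hI h1, h2⟩
    · rintro ⟨h1, h2⟩
      by_contra h3
      have h4 : l ∉ I := fun h => h3 ⟨h, h2⟩
      exact h2 (hout l h1 h4)
  have hTx : (I \ A).card ≤ x := by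
    rw [hTJ]
    exact hKx
  have hwn : 2 ≤ σ.w := by
    have h1 : (2 : ℝ) ≤ σ.w := by
      refine le_trans ?_ ho.w
      have h2 : ϖ * (2 / ϖ) ≤ ϖ * n0 := mul_le_mul_of_nonneg_left (hKϖ.trans hKn) hϖ.le
      have h3 : ϖ * (2 / ϖ) = 2 := by field_simp
      linarith only [h2, h3]
    exact_mod_cast h1
  by_cases hx : x = 1
  · -- (3) `x = 1`
    subst hx
    have hcT : (range J \ A).card = 0 ∨ (range J \ A).card = 1 := by omega
    have hok : ∀ k ∈ σ'.ms, k.Ok d J := fun k hk => (ho'.adm k hk).ok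
    rcases hcT with hcT | hcT
    · have hAJ : A = range J := by
        refine Subset.antisymm hA ?_
        rw [← sdiff_eq_empty_iff_subset]
        exact card_eq_zero.1 hcT
      subst hAJ
      have hIA' : I ∩ range J = I := inter_eq_left.2 hI
      rw [hIA'] at hIA
      have hw1 := hw5 (by omega)
      have hw2 : 1 ≤ σ'.w := by
        rw [hσw]
        omega
      have hVk : ∀ I' ⊆ I, ∀ D', (σ'.lw 1).V J I' D' = σ.V J I' D' := fun I' hI' D' => by
        rw [hσe]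
        exact (St.V_killw hw2 (hI'.trans hI)).symm
      refine one (σ'.lw 1) ⟨⟨ho'.c, ho'.c', ?_, ?_, ho'.adm⟩, hG', ?_, ?_⟩ ?_ ?_ ?_
      · have h1 := St.n_lw (J := J) σ' hw2
        have h2 := ho'.n
        omega
      · have h1 : (((σ'.lw 1).w : ℕ) : ℝ) = (σ'.w : ℝ) - 1 := by
          show ((σ'.w - 1 : ℕ) : ℝ) = _
          rw [Nat.cast_sub hw2, Nat.cast_one]
        rw [h1, hσw]
        have h2 : 1 ≤ η / 8 * n0 := by
          have h3 := mul_le_mul_of_nonneg_left (hKη.trans hKn) (show 0 ≤ η / 8 by positivity)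
          have h4 : η / 8 * (8 / η) = 1 := by field_simp
          linarith only [h3, h4]
        have h3 : ϖ * n0 ≤ η / 2 * n0 := mul_le_mul_of_nonneg_right hϖη (Nat.cast_nonneg _)
        linarith only [hw1, h2, h3]
      · intro I' hI' D' h1 h2 h3
        rw [hVk I' hI' D']
        exact hp I' hI' D' h1 h2 h3
      · rw [hVk I Subset.rfl D]
        exact hv0
      · rw [hmu]
        show tmu J σ' < 1 * (J + 1) + (range J \ range J).card + 1 + tmu J σ'
        omega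
      · have h1 := St.H_killw (σ := σ') (I := I) hD hw2 hI hok
        rw [← hσe] at h1
        unfold St.dl
        rw [h1, hVk I Subset.rfl D]
      · rw [hval]
        unfold tval
        rw [hVk I Subset.rfl D]
        have h3 := tr_tls_nonneg (c0 := c0) (n0 := n0) (I := I) (D := D) heb0 (.ord 1 (range J))
        show _ ≤ (σ.V J I D : ℝ) - (σ'.ms.map (tls c0 n0 I D eb)).sum
        linarith only [h3]
    · obtain ⟨b, hb⟩ := card_eq_one.1 hcT
      have hbJ : b ∈ range J \ A := by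
        rw [hb]
        exact mem_singleton_self _
      rw [mem_sdiff] at hbJ
      have hbI : b ∈ I := by
        by_contra h
        exact hbJ.2 (hout b hbJ.1 h)
      have hAe : A = (range J).erase b := by
        ext l
        rw [mem_erase]
        constructor
        · intro hl
          exact ⟨fun h => hbJ.2 (h ▸ hl), hA hl⟩
        · rintro ⟨h1, h2⟩
          by_contra h3
          have h4 : l ∈ range J \ A := mem_sdiff.2 ⟨h2, h3⟩
          rw [hb, mem_singleton] at h4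
          exact h1 h4
      have hcb := hc5 b hbI
      have hbJ' : b < J := mem_range.1 hbJ.1
      have hη8 : 1 ≤ η / 8 * c0 b := by
        have h3 := mul_le_mul_of_nonneg_left (hKη.trans (hKc b hbI)) (show 0 ≤ η / 8 by positivity)
        have h4 : η / 8 * (8 / η) = 1 := by field_simp
        linarith only [h3, h4]
      have hc1 : 1 ≤ σ'.c b := by
        rw [hσc]
        have h1 : (1 : ℝ) ≤ σ.c b := by
          have h2 : 0 ≤ η * (c0 b : ℝ) := by positivity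
          linarith only [hη1, hϖ, hϖη, hcb, hη8]
        exact_mod_cast h1
      have hVk : ∀ I' ⊆ I, ∀ D', (σ'.lo b 1).V J I' D' = σ.V J I' D' := fun I' hI' D' => by
        rw [hσe, hAe]
        exact (St.V_kill hbJ' hc1 (hI'.trans hI)).symm
      have hlob : (σ'.lo b 1).c b = σ'.c b - 1 := by
        show Function.update σ'.c b (σ'.c b - 1) b = _
        rw [Function.update_self]
      have hlol : ∀ l, l ≠ b → (σ'.lo b 1).c l = σ'.c l := fun l hl => by
        show Function.update σ'.c b (σ'.c b - 1) l = _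
        rw [Function.update_of_ne hl]
      refine one (σ'.lo b 1) ⟨⟨?_, ?_, ?_, ho'.w, ho'.adm⟩, hG', ?_, ?_⟩ ?_ ?_ ?_
      · intro l
        by_cases hl : l = b
        · subst hl
          rw [hlob]
          exact (Nat.sub_le _ _).trans (ho'.c l)
        · rw [hlol l hl]
          exact ho'.c l
      · intro l hl
        by_cases hlb : l = b
        · subst hlb
          rw [hlob, Nat.cast_sub hc1, Nat.cast_one, hσc]
          have h3 : ϖ * c0 l ≤ η / 2 * c0 l := mul_le_mul_of_nonneg_right hϖη (Nat.cast_nonneg _)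
          linarith only [hcb, hη8, h3]
        · rw [hlol l hlb]
          exact ho'.c' l hl
      · have h1 := St.n_lo (J := J) σ' hbJ' hc1
        have h2 := ho'.n
        omega
      · intro I' hI' D' h1 h2 h3
        rw [hVk I' hI' D']
        exact hp I' hI' D' h1 h2 h3
      · rw [hVk I Subset.rfl D]
        exact hv0
      · rw [hmu]
        show tmu J σ' < 1 * (J + 1) + (range J \ A).card + 1 + tmu J σ'
        omega
      · have h1 := St.H_kill (σ := σ') (I := I) hD hbJ' hc1 hI hok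
        rw [← hAe, ← hσe] at h1
        unfold St.dl
        rw [h1, hVk I Subset.rfl D]
      · rw [hval]
        unfold tval
        rw [hVk I Subset.rfl D]
        have h3 := tr_tls_nonneg (c0 := c0) (n0 := n0) (I := I) (D := D) heb0 (.ord 1 A)
        show _ ≤ (σ.V J I D : ℝ) - (σ'.ms.map (tls c0 n0 I D eb)).sum
        linarith only [h3]
  · -- (4) `x ≥ 2`
    obtain ⟨a, haT, hNa⟩ := (hKp x (I \ A) sdiff_subset hTx hx1 hKpx).resolve_left hx
    obtain ⟨haI, haA⟩ := mem_sdiff.1 haT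
    have haJ : a ∈ range J := hI haI
    have hx2 : 2 ≤ x := by omega
    have hok : ∀ k ∈ σ'.ms, k.Ok d J := fun k hk => (ho'.adm k hk).ok
    obtain ⟨c', hc1, hc2, hc3, h1, h2, h3⟩ := hexc σ' ho' hG' hp' x A a hx2 hxD hA hKx haI haA hIA
    have hav := av hD hI hok hx2 hxD hA haI haA hc1 hc2 (by rw [hσw]; exact hwn) h1 h2
    rw [← hσe] at hav
    have haIA : a ∉ I ∩ A := fun h => haA (Finset.mem_inter.1 h).2
    have hins : I ∩ insert a A = insert a (I ∩ A) := inter_insert_of_mem haI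
    have hI2 : insert a (I ∩ A) ⊆ I := insert_subset haI inter_subset_left
    have hcT : 1 ≤ (I \ A).card := card_pos.2 ⟨a, haT⟩
    obtain ⟨b, hb⟩ : ∃ b, b + 1 = (I \ A).card := ⟨(I \ A).card - 1, by omega⟩
    have hb' : (I \ insert a A).card = b := by
      rw [sdiff_insert, card_erase_of_mem haT]
      omega
    have hbd : b < d := by
      have := card_le_card (sdiff_subset : I \ A ⊆ I)
      omega
    have hcI2 : (insert a (I ∩ A)).card = (I ∩ A).card + 1 := card_insert_of_notMem haIA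
    have hsd2 : (I \ insert a (I ∩ A)).card = b := by
      rw [sdiff_insert, sdiff_inter_self_left, card_erase_of_mem haT]
      omega
    have hcard : (range J \ insert a A).card + 1 = (range J \ A).card := by
      rw [sdiff_insert, card_erase_of_mem (mem_sdiff.2 ⟨haJ, haA⟩)]
      have := card_pos.2 ⟨a, mem_sdiff.2 ⟨haJ, haA⟩⟩
      omega
    -- exactness at the lower pairs
    have hE1 : (σ'.H d J (I ∩ A) (D - x) : ℤ) = σ'.V J (I ∩ A) (D - x) :=
      hex' _ inter_subset_left _ (by omega) (by rw [sdiff_inter_self_left]; omega)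
    have hE2 : (σ'.H d J (insert a (I ∩ A)) (D - x) : ℤ) = σ'.V J (insert a (I ∩ A)) (D - x) :=
      hex' _ hI2 _ (by omega) (by rw [hsd2]; omega)
    have hE3 : (σ'.H d J (insert a (I ∩ A)) (D - x + 1) : ℤ) =
        σ'.V J (insert a (I ∩ A)) (D - x + 1) :=
      hex' _ hI2 _ (by omega) (by rw [hsd2]; omega)
    obtain ⟨z, hz⟩ : ∃ z, z = nz c0 n0 (I ∩ A) (D - x) := ⟨_, rfl⟩
    have hz0 : 0 ≤ z := hz ▸ tr_nz_nonneg _ _ _ _
    obtain ⟨kap, hkap⟩ : ∃ y : ℝ, y = (σ'.V J (I ∩ A) (D - x) : ℝ) := ⟨_, rfl⟩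
    obtain ⟨s0, hs0⟩ : ∃ y : ℝ, y = (σ'.V J (insert a (I ∩ A)) (D - x) : ℝ) := ⟨_, rfl⟩
    obtain ⟨s1, hs1⟩ : ∃ y : ℝ, y = (σ'.V J (insert a (I ∩ A)) (D - x + 1) : ℝ) := ⟨_, rfl⟩
    have hkap' : kap = (σ'.H d J (I ∩ A) (D - x) : ℝ) := by
      rw [hkap]
      exact_mod_cast hE1.symm
    have hs0' : s0 = (σ'.H d J (insert a (I ∩ A)) (D - x) : ℝ) := by
      rw [hs0]
      exact_mod_cast hE2.symm
    have hs1' : s1 = (σ'.H d J (insert a (I ∩ A)) (D - x + 1) : ℝ) := by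
      rw [hs1]
      exact_mod_cast hE3.symm
    have hnz1 : nz c0 n0 (insert a (I ∩ A)) (D - x + 1) = (c0 a : ℝ) * z := by
      rw [hz]
      exact tr_nz_insert_succ haIA
    have hca1 : 1 ≤ (c0 a : ℝ) := hK1.trans (hKc a haI)
    have hkz : kap ≤ z := by
      rw [hkap', hz]
      exact St.H_le (by omega) (inter_subset_left.trans hI) (fun l _ => ho'.c l) ho'.n hIA
    have hs1z : s1 ≤ c0 a * z := by
      rw [hs1', ← hnz1]
      exact St.H_le (by omega) (hI2.trans hI) (fun l _ => ho'.c l) ho'.n (by omega)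
    have hnz0 : (insert a (I ∩ A)).card ≤ D - x →
        nz c0 n0 (insert a (I ∩ A)) (D - x) ≤ e0 * z := by
      intro h4
      have h5 := tr_nz_insert (c0 := c0) (n0 := n0) haIA (by omega : (I ∩ A).card + 1 ≤ D - x)
      rw [← hz] at h5
      have h6 := hKc0 a haI
      have h7 := tr_nz_nonneg c0 n0 (insert a (I ∩ A)) (D - x)
      have h8 : K * nz c0 n0 (insert a (I ∩ A)) (D - x) ≤ z := by
        have h9 : (c0 a : ℝ) * (K * nz c0 n0 (insert a (I ∩ A)) (D - x)) ≤ c0 a * z := by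
          rw [← h5]
          calc (c0 a : ℝ) * (K * nz c0 n0 (insert a (I ∩ A)) (D - x)) =
              (K * c0 a) * nz c0 n0 (insert a (I ∩ A)) (D - x) := by ring
            _ ≤ _ := mul_le_mul_of_nonneg_right h6 h7
        exact le_of_mul_le_mul_left h9 (by linarith only [hη1, hϖ, hϖη, hca1])
      calc nz c0 n0 (insert a (I ∩ A)) (D - x) = 1 / K * (K * nz c0 n0 (insert a (I ∩ A)) (D - x)) := by
            field_simp
        _ ≤ 1 / K * z := mul_le_mul_of_nonneg_left h8 (by positivity)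
        _ ≤ e0 * z := mul_le_mul_of_nonneg_right he0 hz0
    have hez : e0 * z ≤ z := by nlinarith only [hη1, hϖ, hϖη, he01, hz0]
    have hs0z : s0 ≤ z := by
      rcases Nat.lt_or_ge (D - x) (insert a (I ∩ A)).card with h4 | h4
      · have h5 := St.V_low (σ := σ') (hI2.trans hI) ho'.adm h4
        rw [hs0, h5]
        exact_mod_cast hz0
      · rw [hs0']
        exact (St.H_le (by omega) (hI2.trans hI) (fun l _ => ho'.c l) ho'.n h4).trans
          ((hnz0 h4).trans hez)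
    -- the losses
    have hl : tls c0 n0 I D eb (.ord x A) = eb (b + 1) * z := by
      show eb (I \ A).card * (if x ≤ D ∧ (I ∩ A).card ≤ D - x then nz c0 n0 (I ∩ A) (D - x) else 0) = _
      rw [if_pos ⟨hxD, hIA⟩, hb, hz]
    have hl0z : tls c0 n0 I D eb (.ord x (insert a A)) ≤ e0 * z := by
      show eb (I \ insert a A).card * (if x ≤ D ∧ (I ∩ insert a A).card ≤ D - x then
        nz c0 n0 (I ∩ insert a A) (D - x) else 0) ≤ _
      rw [hb', hins]
      have he0p : 0 ≤ e0 := le_trans (by positivity) he0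
      split_ifs with h4
      · calc eb b * nz c0 n0 (insert a (I ∩ A)) (D - x) ≤
            1 * nz c0 n0 (insert a (I ∩ A)) (D - x) :=
              mul_le_mul_of_nonneg_right (heb1 b hbd.le) (tr_nz_nonneg _ _ _ _)
          _ ≤ e0 * z := by
              rw [one_mul]
              exact hnz0 h4.2
      · rw [mul_zero]
        positivity
    have hl1 : tls c0 n0 I D eb (.ord (x - 1) (insert a A)) = eb b * (c0 a * z) := by
      show eb (I \ insert a A).card * (if x - 1 ≤ D ∧ (I ∩ insert a A).card ≤ D - (x - 1) then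
        nz c0 n0 (I ∩ insert a A) (D - (x - 1)) else 0) = _
      have h4 : D - (x - 1) = D - x + 1 := by omega
      rw [hb', hins, h4, if_pos ⟨by omega, by omega⟩, hnz1]
    -- the virtual dimensions
    have hVσ : (σ.V J I D : ℝ) = (σ'.V J I D : ℝ) - kap := by
      rw [hσe, St.V_ord _ hxD, hkap]
      push_cast
      ring
    have hVσ0 : ((σ'.ad (.ord x (insert a A))).V J I D : ℝ) = (σ'.V J I D : ℝ) - s0 := by
      rw [St.V_ord _ hxD, hins, hs0]
      push_cast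
      ring
    have hVσ1 : ((σ'.ad (.ord (x - 1) (insert a A))).V J I D : ℝ) = (σ'.V J I D : ℝ) - s1 := by
      have h4 : D - (x - 1) = D - x + 1 := by omega
      rw [St.V_ord _ (by omega), hins, h4, hs1]
      push_cast
      ring
    -- the parameter
    have hNR : (0 : ℝ) < N := by exact_mod_cast hN
    have hlam : X * (c0 a * z) ≤ lam := by
      have h4 := nz_T (c0 := c0) (n0 := n0) hTx hxD hID hIA
      have h5 : (∏ l ∈ I \ A, (c0 l : ℝ)) = c0 a * ∏ l ∈ (I \ A).erase a, (c0 l : ℝ) :=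
        (mul_prod_erase _ _ haT).symm
      have h6 : c0 a * z * N ≤ nz c0 n0 I D := by
        rw [h4, h5, ← hz]
        calc c0 a * z * N ≤ c0 a * z *
              ((∏ l ∈ (I \ A).erase a, (c0 l : ℝ)) * (n0 : ℝ) ^ (x - (I \ A).card)) :=
              mul_le_mul_of_nonneg_left hNa (by positivity)
          _ = _ := by ring
      have h7 : X * (c0 a * z) * N ≤ lam * N := by
        rw [← hXA]
        calc X * (c0 a * z) * N = X * (c0 a * z * N) := by ring
          _ ≤ _ := mul_le_mul_of_nonneg_left h6 hX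
      exact le_of_mul_le_mul_right h7 hNR
    have hc'R : (1 : ℝ) ≤ c' := by exact_mod_cast hc1
    have hR1 : 1 ≤ R := by
      rw [hR, le_div_iff₀ hη]
      linarith only [hη1, hϖ, hϖη]
    have hcq : (c0 a : ℝ) ≤ R * c' := by
      rw [hR]
      have h4 : η / 2 / 2 * c0 a = η / 4 * c0 a := by ring
      rw [h4] at hc3
      calc (c0 a : ℝ) = 4 / η * (η / 4 * c0 a) := by field_simp
        _ ≤ 4 / η * c' := mul_le_mul_of_nonneg_left hc3 (by positivity)
    have hfin := exp_step (X := X) (z := z) (kap := kap) (s0 := s0) (s1 := s1)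
      (l0 := tls c0 n0 I D eb (.ord x (insert a A)))
      (l1 := tls c0 n0 I D eb (.ord (x - 1) (insert a A))) (l := tls c0 n0 I D eb (.ord x A))
      (R := R) (ε := ε) (eb := eb b) (eb' := eb (b + 1)) (e0 := e0) (lam := lam) (c0a := c0 a)
      (q := c') hX hz0 hc'R hR1 hcq hca1 (by rw [hkap']; positivity) hkz (by rw [hs0']; positivity)
      hs0z (by rw [hs1']; positivity) hs1z (by rw [hs1, hs0, hkap]; exact h3) hε hl
      (tr_tls_nonneg heb0 _) hl0z (tr_tls_nonneg heb0 _) hl1.le (heb0 b) (heb1 b hbd.le) (heb0 _)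
      (heb1 _ hbd) he01 hlam hlam1 (hebs b hbd)
    have hms' : G (.ord x A ::ₘ σ'.ms) := by
      rw [hσm, ← hms]
      exact hGσ
    refine ⟨σ'.ad (.ord x (insert a A)), σ'.ad (.ord (x - 1) (insert a A)), 1 / c', by positivity,
      ?_, hrep x (insert a A) hx1 hxd (insert_subset haJ hA) (by omega) (hG2 x A a _ haJ haA hms'),
      hrep (x - 1) (insert a A) (by omega) (by omega) (insert_subset haJ hA) (by omega)
        (hG3 x A a _ hx2 haI haA hms'), ?_, ?_, ?_, ?_⟩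
    · rw [div_le_one (by linarith only [hη1, hϖ, hϖη, hc'R])]
      exact hc'R
    · rw [hmu, hmu']
      show x * (J + 1) + (range J \ insert a A).card + 1 + tmu J σ' <
        x * (J + 1) + (range J \ A).card + 1 + tmu J σ'
      omega
    · rw [hmu, hmu']
      show (x - 1) * (J + 1) + (range J \ insert a A).card + 1 + tmu J σ' <
        x * (J + 1) + (range J \ A).card + 1 + tmu J σ'
      have h4 : (x - 1) * (J + 1) ≤ x * (J + 1) := Nat.mul_le_mul_right _ (Nat.sub_le _ _)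
      omega
    · have h4 : (c' : ℝ) * (σ.dl d J I D : ℝ) ≤
          ((c' : ℝ) - 1) * ((σ'.ad (.ord x (insert a A))).dl d J I D : ℝ) +
            ((σ'.ad (.ord (x - 1) (insert a A))).dl d J I D : ℝ) := by exact_mod_cast hav
      have hc0' : (0 : ℝ) < c' := by linarith only [hη1, hϖ, hϖη, hc'R]
      have h5 : (1 - 1 / (c' : ℝ)) * ((σ'.ad (.ord x (insert a A))).dl d J I D : ℝ) +
          1 / c' * ((σ'.ad (.ord (x - 1) (insert a A))).dl d J I D : ℝ) =
          (((c' : ℝ) - 1) * ((σ'.ad (.ord x (insert a A))).dl d J I D : ℝ) +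
            ((σ'.ad (.ord (x - 1) (insert a A))).dl d J I D : ℝ)) / c' := by
        field_simp
      rw [h5, le_div_iff₀ hc0']
      linarith only [h4]
    · have h4 : tval J c0 n0 I D eb σ - tval J c0 n0 I D eb (σ'.ad (.ord x (insert a A))) =
          s0 + tls c0 n0 I D eb (.ord x (insert a A)) - kap - tls c0 n0 I D eb (.ord x A) := by
        rw [hval, hval', hVσ, hVσ0]
        ring
      have h5 : tval J c0 n0 I D eb σ - tval J c0 n0 I D eb (σ'.ad (.ord (x - 1) (insert a A))) =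
          s1 + tls c0 n0 I D eb (.ord (x - 1) (insert a A)) - kap - tls c0 n0 I D eb (.ord x A) := by
        rw [hval, hval', hVσ, hVσ1]
        ring
      rw [h4, h5]
      exact hfin

theorem tr_ord (d J : ℕ) {η ϖ : ℝ} (hη : 0 < η) (hη1 : η ≤ 1) (hϖ : 0 < ϖ) (hϖ1 : ϖ ≤ 1) :
    ∃ η₁ ϖ₁ K : ℝ, 0 < η₁ ∧ η₁ ≤ 1 ∧ 0 < ϖ₁ ∧ ϖ₁ ≤ 1 ∧ 0 < K ∧
      ∀ (c0 : ℕ → ℕ) (n0 N : ℕ) (I : Finset ℕ) (D : ℕ) (G : Multiset Kd → Prop)
        (Kp : ℕ → Finset ℕ → Prop), I ⊆ range J → D ≤ d → Big d J c0 n0 I K →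
        K * (1 + Real.log n0) ≤ (N : ℝ) → N ≤ n0 →
        (∀ x A ms, G (.ord x A ::ₘ ms) → G ms) →
        (∀ x A a ms, a ∈ range J → a ∉ A → G (.ord x A ::ₘ ms) → G (.ord x (insert a A) ::ₘ ms)) →
        (∀ x A a ms, 2 ≤ x → a ∈ I → a ∉ A → G (.ord x A ::ₘ ms) →
          G (.ord (x - 1) (insert a A) ::ₘ ms)) →
        (∀ x T, T ⊆ I → T.card ≤ x → 1 ≤ x → ¬ Kp x T → x = 1 ∨
          ∃ a ∈ T, (N : ℝ) ≤ (∏ l ∈ T.erase a, (c0 l : ℝ)) * (n0 : ℝ) ^ (x - T.card)) →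
        Orc d J c0 n0 G I D η₁ ϖ₁ →
        (∀ σ : St, InO d J c0 n0 ϖ₁ I σ → G σ.ms →
          (∀ k ∈ σ.ms, ∃ x A, k = .ord x A ∧ Kp x (I \ A)) → Pos J c0 n0 η₁ σ I D →
          σ.dl d J I D ≤ 0) →
        ∀ σ : St, InO d J c0 n0 ϖ I σ → G σ.ms → Pos J c0 n0 η σ I D → σ.dl d J I D ≤ 0 := by
  classical
  obtain ⟨ϖ', hϖ'⟩ : ∃ y, y = min ϖ (η / 2) := ⟨_, rfl⟩
  have hϖ'0 : 0 < ϖ' := by
    rw [hϖ']
    exact lt_min hϖ (by positivity)
  have hϖ'1 : ϖ' ≤ ϖ := hϖ' ▸ min_le_left _ _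
  have hϖ'2 : ϖ' ≤ η / 2 := hϖ' ▸ min_le_right _ _
  obtain ⟨R, hR⟩ : ∃ y, y = 4 / η := ⟨_, rfl⟩
  have hR0 : 0 < R := by
    rw [hR]
    positivity
  obtain ⟨e1, he1⟩ : ∃ y, y = η ^ 2 / 16 / (R + 1) ^ d := ⟨_, rfl⟩
  have he10 : 0 < e1 := by
    rw [he1]
    positivity
  have he1s : e1 ≤ η ^ 2 / 16 := by
    rw [he1]
    apply div_le_self (by positivity)
    exact one_le_pow₀ (by linarith)
  have he11 : e1 ≤ 1 := by nlinarith only [hη1, hϖ'0, hϖ'2, he1s, hη]
  obtain ⟨eb, heb⟩ : ∃ eb : ℕ → ℝ, ∀ b, eb b = e1 * (R + 1) ^ b := ⟨_, fun _ => rfl⟩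
  have heb0 : ∀ b, 0 ≤ eb b := fun b => by
    rw [heb]
    positivity
  have hebη : ∀ b ≤ d, eb b ≤ η ^ 2 / 16 := by
    intro b hb
    rw [heb, he1]
    have h1 : (R + 1) ^ b ≤ (R + 1) ^ d := pow_le_pow_right₀ (by linarith only [hR0]) hb
    calc η ^ 2 / 16 / (R + 1) ^ d * (R + 1) ^ b ≤ η ^ 2 / 16 / (R + 1) ^ d * (R + 1) ^ d :=
          mul_le_mul_of_nonneg_left h1 (by positivity)
      _ = η ^ 2 / 16 := by field_simp
  have heb1 : ∀ b ≤ d, eb b ≤ 1 := fun b hb => (hebη b hb).trans (by nlinarith only [hη1, hϖ'0, hϖ'2, hη])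
  have hebe : ∀ b, e1 ≤ eb b := fun b => by
    rw [heb]
    exact le_mul_of_one_le_right he10.le (one_le_pow₀ (by linarith))
  obtain ⟨ε, hε⟩ : ∃ y, y = min (1 / 8) (e1 / 12) := ⟨_, rfl⟩
  have hε0 : 0 < ε := by
    rw [hε]
    exact lt_min (by norm_num) (by positivity)
  have hε1 : ε ≤ 1 / 8 := hε ▸ min_le_left _ _
  have hε2 : ε ≤ e1 / 12 := hε ▸ min_le_right _ _
  obtain ⟨lam, hlam⟩ : ∃ y, y = e1 / (4 * (4 + 4 * R)) := ⟨_, rfl⟩
  have hlam0 : 0 < lam := by
    rw [hlam]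
    positivity
  have hlamR : (4 + 4 * R) * lam = e1 / 4 := by
    rw [hlam]
    field_simp
  have hlam1 : lam ≤ 1 / 2 := by nlinarith only [hη1, hϖ'2, he11, hlamR, hϖ'0, hε0, hε2, hR0, hlam0]
  obtain ⟨K₁, hK₁⟩ := exc d J (η := η / 2) (ϖ := ϖ') (ε := ε) (by positivity) hϖ'0
    (hϖ'1.trans hϖ1) hε0 hε1
  obtain ⟨K, hK⟩ : ∃ y, y = max K₁ (max (32 * ((d : ℝ) + 1) / η + 4) (max (2 / ϖ')
    (max (4 / e1) (8 * ((d : ℝ) + 1) / (lam * η))))) := ⟨_, rfl⟩
  have hKa : K₁ ≤ K := hK ▸ le_max_left _ _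
  have hKb : 32 * ((d : ℝ) + 1) / η + 4 ≤ K := hK ▸ (le_max_left _ _).trans (le_max_right _ _)
  have hKc : 2 / ϖ' ≤ K :=
    hK ▸ (le_max_left _ _).trans ((le_max_right _ _).trans (le_max_right _ _))
  have hKd : 4 / e1 ≤ K := hK ▸ (le_max_left _ _).trans ((le_max_right _ _).trans
    ((le_max_right _ _).trans (le_max_right _ _)))
  have hKe : 8 * ((d : ℝ) + 1) / (lam * η) ≤ K := hK ▸ (le_max_right _ _).trans
    ((le_max_right _ _).trans ((le_max_right _ _).trans (le_max_right _ _)))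
  have hK4 : 4 ≤ K := by
    have h1 : 0 ≤ 32 * ((d : ℝ) + 1) / η := by positivity
    linarith only [hKb, h1]
  have hK0 : 0 < K := by linarith only [he11, hε0, hε2, hK4]
  have hη₁ : ε * (η / 2) / 8 ≤ η / 2 := by nlinarith only [he1s, hε0, hε2, hη, hη1, hε1]
  have hϖ₁ : ε * ϖ' / 2 ≤ ϖ' := by nlinarith only [hϖ'0, hε1]
  refine ⟨ε * (η / 2) / 8, ε * ϖ' / 2, K, by positivity, by linarith only [hη1, he11, hε0, hε2, hη₁], by positivity, by linarith only [hη1, hϖ'2, he11, hε0, hε2, hϖ₁],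
    hK0, ?_⟩
  intro c0 n0 N I D G Kp hI hD hB hN hNn hG1 hG2 hG3 hKp orc hterm σ ho hG hp
  -- the trivial case
  rcases Nat.lt_or_ge D I.card with hID | hID
  · unfold St.dl
    rw [St.V_low hI ho.adm hID, St.H_low hID]
    exact le_rfl
  have hn0 : K ≤ (n0 : ℝ) := by
    refine le_trans ?_ hB.n
    have h1 : (1 : ℝ) ≤ (1 + ∑ l ∈ range J, (c0 l : ℝ)) ^ (d + 1) := by
      apply one_le_pow₀
      have : (0 : ℝ) ≤ ∑ l ∈ range J, (c0 l : ℝ) := sum_nonneg fun _ _ => Nat.cast_nonneg _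
      linarith only [this]
    nlinarith only [h1, he11, hε0, hε2, hK4]
  have hn01 : (1 : ℝ) ≤ n0 := by linarith only [he11, hε0, hε2, hK4, hn0]
  have hlog : 0 ≤ Real.log n0 := Real.log_nonneg hn01
  have hNR : (0 : ℝ) < N := by
    have h1 : K * 1 ≤ K * (1 + Real.log n0) := mul_le_mul_of_nonneg_left (by linarith only [hlog]) hK0.le
    linarith only [he11, hε0, hε2, hK4, hN, h1]
  have hN0 : 0 < N := by exact_mod_cast hNR
  have hcn : ∀ l ∈ I, (c0 l : ℝ) ≤ n0 := by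
    intro l hl
    refine le_trans ?_ hB.n
    have h1 : (c0 l : ℝ) ≤ ∑ l ∈ range J, (c0 l : ℝ) :=
      single_le_sum (f := fun l => (c0 l : ℝ)) (fun _ _ => Nat.cast_nonneg _) (hI hl)
    have h0 : (0 : ℝ) ≤ ∑ l ∈ range J, (c0 l : ℝ) := sum_nonneg fun _ _ => Nat.cast_nonneg _
    have h2 : (1 : ℝ) ≤ 1 + ∑ l ∈ range J, (c0 l : ℝ) := by linarith only [h1]
    calc (c0 l : ℝ) ≤ (1 + ∑ l ∈ range J, (c0 l : ℝ)) ^ 1 := by
          rw [pow_one]
          linarith only [he11, hε0, hε2, h1]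
      _ ≤ (1 + ∑ l ∈ range J, (c0 l : ℝ)) ^ (d + 1) := pow_le_pow_right₀ h2 (by omega)
      _ ≤ K * (1 + ∑ l ∈ range J, (c0 l : ℝ)) ^ (d + 1) :=
          le_mul_of_one_le_left (by positivity) (by linarith only [he11, hε0, hε2, hK4])
  obtain ⟨A0, hA0⟩ : ∃ y, y = nz c0 n0 I D := ⟨_, rfl⟩
  have hA0p : 0 < A0 := by
    rw [hA0]
    unfold nz
    refine mul_pos (prod_pos fun l hl => ?_) (by positivity)
    have := hB.c l hl
    linarith only [he11, hε0, hε2, hK4, this]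
  have hA0n : A0 ≤ (n0 : ℝ) ^ d := by
    rw [hA0]
    unfold nz
    calc (∏ i ∈ I, (c0 i : ℝ)) * (n0 : ℝ) ^ (D - I.card) ≤
          (∏ _i ∈ I, (n0 : ℝ)) * (n0 : ℝ) ^ (D - I.card) :=
          mul_le_mul_of_nonneg_right (prod_le_prod (fun _ _ => Nat.cast_nonneg _) hcn) (by positivity)
      _ = (n0 : ℝ) ^ D := by
          rw [prod_const, ← pow_add]
          congr 1
          omega
      _ ≤ (n0 : ℝ) ^ d := pow_le_pow_right₀ hn01 hD
  obtain ⟨X, hX⟩ : ∃ y, y = lam * N / A0 := ⟨_, rfl⟩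
  have hX0 : 0 ≤ X := by
    rw [hX]
    positivity
  have hXA : X * A0 = lam * N := by
    rw [hX]
    field_simp
  have hexc := hK₁ c0 n0 I D G hI hD ⟨fun l hl => hKa.trans (hB.c l hl),
    (mul_le_mul_of_nonneg_right hKa (by positivity)).trans hB.n⟩ orc
  have hpot := pot (tmu J) (TrC d J c0 n0 I D G η ϖ') (tval J c0 n0 I D eb)
    (fun σ => (σ.dl d J I D : ℝ)) (thr := 3 / 4 * η * A0) (X := X) (T := A0) hX0 hA0p.le
    (fun σ hσ => by
      show ((σ.dl d J I D : ℤ) : ℝ) ≤ A0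
      have h1 := St.H_le (c0 := c0) (n0 := n0) (σ := σ) hD hI (fun l _ => hσ.ho.c l) hσ.ho.n hID
      have h2 : (0 : ℝ) ≤ (σ.V J I D : ℝ) := by exact_mod_cast hσ.hv
      unfold St.dl
      push_cast
      rw [hA0]
      linarith only [h1, h2])
    (fun σ hσ h1 => tr_step (e0 := e1 / 4) (K := K) (R := R) (lam := lam) (ε := ε) (X := X) hη hη1
      hϖ'0 hϖ'2 hI hD hID hB hKb hKc hG1 hG2 hG3 hKp orc hη₁ hϖ₁ hexc hterm heb0 heb1 hε0.le hR
      (by
        rw [div_le_iff₀ hK0]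
        have h2 : e1 / 4 * (4 / e1) ≤ e1 / 4 * K := mul_le_mul_of_nonneg_left hKd (by positivity)
        have h3 : e1 / 4 * (4 / e1) = 1 := by field_simp
        linarith only [h2, h3])
      (by linarith only [he11, hε0, hε2]) hlam1
      (fun b _ => by
        have h2 := hebe b
        have h3 : eb (b + 1) = R * eb b + eb b := by
          rw [heb, heb, pow_succ]
          ring
        rw [h3, hlamR]
        linarith only [hε0, hε2, h2])
      hX0 hN0 (by rw [← hA0]; exact hXA) hσ (by rw [← hA0]; exact h1))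
  have hσC : TrC d J c0 n0 I D G η ϖ' σ := by
    refine ⟨tr_InO hϖ'1 ho, hG, fun I' hI' D' h1 _ h3 => ?_, ?_⟩
    · exact (mul_le_mul_of_nonneg_right (by linarith only [hϖ'0, hϖ'2]) (tr_nz_nonneg _ _ _ _)).trans
        (hp I' hI' D' h1 h3)
    · have h1 := hp I Subset.rfl D hID (by simp)
      have h2 : (0 : ℝ) ≤ (σ.V J I D : ℝ) := by
        refine le_trans ?_ h1
        rw [← hA0]
        positivity
      exact_mod_cast h2
  have h1 := hpot σ hσC
  -- the losses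
  have hL : (σ.ms.map (tls c0 n0 I D eb)).sum ≤ η / 16 * A0 := by
    have h2 : (σ.ms.map (tls c0 n0 I D eb)).sum ≤
        (σ.ms.map fun k => η ^ 2 / 16 * nk c0 n0 I D k).sum := by
      refine Multiset.sum_map_le_sum_map _ _ fun k hk => ?_
      obtain ⟨x, A, rfl, -⟩ := ho.adm k hk
      refine mul_le_mul_of_nonneg_right (hebη _ ?_) (tr_nk_nonneg _)
      have := card_le_card (sdiff_subset : I \ A ⊆ I)
      omega
    have h3 := numb hD hI hID ho hη hp
    rw [← hA0] at h3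
    rw [Multiset.sum_map_mul_left] at h2
    calc _ ≤ _ := h2
      _ = η / 16 * (η * (σ.ms.map (nk c0 n0 I D)).sum) := by ring
      _ ≤ η / 16 * A0 := mul_le_mul_of_nonneg_left h3 (by positivity)
  have hval : η / 8 * A0 ≤ tval J c0 n0 I D eb σ - 3 / 4 * η * A0 := by
    have h2 := hp I Subset.rfl D hID (by simp)
    rw [← hA0] at h2
    unfold tval
    nlinarith only [hL, h2, hη, hA0p]
  have hXv : ((d : ℝ) + 1) * (1 + Real.log n0) ≤ X * (tval J c0 n0 I D eb σ - 3 / 4 * η * A0) := by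
    calc ((d : ℝ) + 1) * (1 + Real.log n0) =
          lam * η / 8 * (8 * ((d : ℝ) + 1) / (lam * η) * (1 + Real.log n0)) := by field_simp
      _ ≤ lam * η / 8 * (K * (1 + Real.log n0)) := by
          refine mul_le_mul_of_nonneg_left ?_ (by positivity)
          exact mul_le_mul_of_nonneg_right hKe (by linarith only [he11, hε0, hε2, hlog])
      _ ≤ lam * η / 8 * N := mul_le_mul_of_nonneg_left hN (by positivity)
      _ = X * (η / 8 * A0) := by
          rw [show X * (η / 8 * A0) = η / 8 * (X * A0) by ring, hXA]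
          ring
      _ ≤ _ := mul_le_mul_of_nonneg_left hval hX0
  have hexp : A0 * Real.exp (-(X * (tval J c0 n0 I D eb σ - 3 / 4 * η * A0))) < 1 := by
    have h2 : A0 < Real.exp (X * (tval J c0 n0 I D eb σ - 3 / 4 * η * A0)) := by
      calc A0 ≤ (n0 : ℝ) ^ d := hA0n
        _ = Real.exp (d * Real.log n0) := by
            rw [← Real.log_pow, Real.exp_log (by positivity)]
        _ < Real.exp (((d : ℝ) + 1) * (1 + Real.log n0)) := by
            rw [Real.exp_lt_exp]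
            have : (0 : ℝ) ≤ d := Nat.cast_nonneg d
            nlinarith only [he11, hε0, hε2, hlog]
        _ ≤ _ := Real.exp_le_exp.2 hXv
    rw [Real.exp_neg]
    rw [← div_eq_mul_inv, div_lt_one (Real.exp_pos _)]
    exact h2
  have h2 : ((σ.dl d J I D : ℤ) : ℝ) < 1 := lt_of_le_of_lt h1 hexp
  have h3 : σ.dl d J I D < 1 := by exact_mod_cast h2
  omega

end Tr

end Pool.Agent.GD.AL
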