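import Pool.Agent.H94.LP7.M11

/-!
# Project GD, ALPHA, module Up: contraction with variables

`up1`: `HI (D + 1) (insert i I) ≤ #(block i) * HI D I`, `i ∉ I`.
`up2`: `HI (D + 1) I ≤ #(variables off the blocks of I) * HI D I + const`, the constant is the number of
the exponents supported on the blocks of `I`.
-/

set_option autoImplicit false
set_option linter.unusedSectionVars false

namespace Pool.Agent.GD.AL

open Finset MvPolynomial Pool.Agent.H51.TB Pool.Agent.V7.ST
open Pool.Agent.H21.NX (Sx mem_Sx)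

section

variable {ν : Type} [Fintype ν] [DecidableEq ν] {d : ℕ}

/-- Contraction with the variable `s`. -/
noncomputable def cv (s : ν) (φ : (ν → ℕ) → ℂ) (b : ν → ℕ) : ℂ :=
  ((b s + 1 : ℕ) : ℂ) * φ (b + Pi.single s 1)

theorem Fn_cv (s : ν) (φ : (ν → ℕ) → ℂ) (P : MvPolynomial ν ℂ) :
    Fn (cv s φ) P = Fn φ (X s * P) := by
  have h : Fn (cv s φ) = (Fn φ).comp (LinearMap.mulLeft ℂ (X s : MvPolynomial ν ℂ)) := by
    refine mon_ext fun b => ?_
    rw [Fn_mon, LinearMap.comp_apply, LinearMap.mulLeft_apply, ← mon_single (R := ℂ) s, ← mon_add,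
      add_comm (Pi.single s 1) b, Fn_mon, fac_single]
    unfold cv
    push_cast
    ring
  rw [h]
  rfl

theorem sat_cv {β : ν → ℕ} {I I' : Finset ℕ} {s : ν} (hs : ∀ i ∈ I, i ∈ I' ∧ β s ≠ i)
    (k : Kd) (q : ν × Fin (d + 1) → ℂ) {φ : (ν → ℕ) → ℂ} (h : Sat β I' k q (Fn φ)) :
    Sat β I k q (Fn (cv s φ)) := by
  refine ⟨fun x hx y => ?_, ?_⟩
  · rw [Fn_cv, mul_left_comm]
    exact h.1 x hx _
  · have h2 := h.2
    rcases k with ⟨e, A⟩ | ⟨e, dl, i, As⟩
    · trivial
    · intro hi κ h1 h3 b hb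
      have h4 := h2 (hs i hi).1 κ h1 h3 (b + Pi.single s 1) (by
        intro s' hs'
        have h5 : s' ≠ s := by
          rintro rfl
          exact (hs i hi).2 hs'
        rw [Pi.add_apply, hb s' hs', Pi.single_eq_of_ne h5, Nat.add_zero])
      rw [Fn_cv]
      rw [mon_add, mon_single] at h4
      rw [← h4]
      congr 1
      ring

theorem up_gen {D : ℕ} (hD : D + 1 ≤ d) (β : ν → ℕ) (I I' : Finset ℕ) (S : Finset ν)
    (hS : ∀ s ∈ S, ∀ i ∈ I, i ∈ I' ∧ β s ≠ i)
    (hb : ∀ s ∈ S, ∀ b : ν → ℕ, b + Pi.single s 1 ∈ Ex β (D + 1) I' → b ∈ Ex β D I)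
    (ms : Multiset Kd) :
    HI d (D + 1) β I' ms ≤ S.card * HI d D β I ms +
      ((Ex β (D + 1) I').filter fun a => ∀ s ∈ S, a s = 0).card := by
  obtain ⟨m, hm, hgd⟩ := exists_conf (LS d D β I) ms
  obtain ⟨p, hp⟩ := gd_attained (LS d D β I) m
  have h0 : HI d (D + 1) β I' ms = (LS d (D + 1) β I').gd m := by
    unfold HI
    rw [gd_eq_gM, hm]
  have h1 : HI d D β I ms = Module.finrank ℂ ((LS d D β I).V m p) := by
    rw [hp, hgd]
    rfl
  rw [h0, h1]
  refine (gd_le (LS d (D + 1) β I') m p).trans ?_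
  -- the contraction
  have hoff : ∀ s ∈ S, ∀ (f : {a // a ∈ Ex β (D + 1) I'} → ℂ) (b : ν → ℕ), b ∉ Ex β D I →
      cv s (ext0 (Ex β (D + 1) I') f) b = 0 := by
    intro s hs f b hbn
    unfold cv
    rw [ext0_not f fun h => hbn (hb s hs b h), mul_zero]
  have hext : ∀ s ∈ S, ∀ (f : {a // a ∈ Ex β (D + 1) I'} → ℂ),
      ext0 (Ex β D I) (fun b => cv s (ext0 (Ex β (D + 1) I') f) b.1) =
        cv s (ext0 (Ex β (D + 1) I') f) := by
    intro s hs f
    funext b
    by_cases hbm : b ∈ Ex β D I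
    · exact ext0_mem (fun b : {b // b ∈ Ex β D I} => cv s (ext0 (Ex β (D + 1) I') f) b.1) ⟨b, hbm⟩
    · rw [ext0_not _ hbm, hoff s hs f b hbm]
  have hadd : ∀ (f g : {a // a ∈ Ex β (D + 1) I'} → ℂ) (b : ν → ℕ),
      ext0 (Ex β (D + 1) I') (f + g) b = ext0 (Ex β (D + 1) I') f b + ext0 (Ex β (D + 1) I') g b := by
    intro f g b
    unfold ext0
    split_ifs
    · rfl
    · rw [add_zero]
  have hsm : ∀ (c : ℂ) (f : {a // a ∈ Ex β (D + 1) I'} → ℂ) (b : ν → ℕ),
      ext0 (Ex β (D + 1) I') (c • f) b = c * ext0 (Ex β (D + 1) I') f b := by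
    intro c f b
    unfold ext0
    split_ifs
    · rfl
    · rw [mul_zero]
  let L : (LS d (D + 1) β I').V m p →ₗ[ℂ] ({s // s ∈ S} → (LS d D β I).V m p) :=
    { toFun := fun f s => ⟨fun b => cv s.1 (ext0 (Ex β (D + 1) I') f.1) b.1, by
        rw [mem_LS (by omega)]
        intro i
        rw [hext s.1 s.2]
        exact sat_cv (hS s.1 s.2) _ _ ((mem_LS hD β I' m p f.1).1 f.2 i)⟩
      map_add' := fun f g => by
        funext s
        refine Subtype.ext (funext fun b => ?_)
        show cv s.1 (ext0 (Ex β (D + 1) I') (f.1 + g.1)) b.1 =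
          cv s.1 (ext0 (Ex β (D + 1) I') f.1) b.1 + cv s.1 (ext0 (Ex β (D + 1) I') g.1) b.1
        unfold cv
        rw [hadd]
        ring
      map_smul' := fun c f => by
        funext s
        refine Subtype.ext (funext fun b => ?_)
        show cv s.1 (ext0 (Ex β (D + 1) I') (c • f.1)) b.1 =
          c * cv s.1 (ext0 (Ex β (D + 1) I') f.1) b.1
        unfold cv
        rw [hsm]
        ring }
  -- the kernel
  let T := (Ex β (D + 1) I').filter fun a => ∀ s ∈ S, a s = 0
  let R : LinearMap.ker L →ₗ[ℂ] ({a // a ∈ T} → ℂ) :=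
    { toFun := fun f a => f.1.1 ⟨a.1, (mem_filter.1 a.2).1⟩
      map_add' := fun f g => rfl
      map_smul' := fun c f => rfl }
  have hz : ∀ (f : LinearMap.ker L) (a : {a // a ∈ Ex β (D + 1) I'}), a.1 ∉ T → f.1.1 a = 0 := by
    intro f a haT
    have h2 : ∃ s ∈ S, a.1 s ≠ 0 := by
      by_contra hcon
      push Not at hcon
      exact haT (mem_filter.2 ⟨a.2, hcon⟩)
    obtain ⟨s, hs, has⟩ := h2
    let b : ν → ℕ := a.1 - Pi.single s 1
    have hab : b + Pi.single s 1 = a.1 := by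
      funext x
      show a.1 x - (Pi.single s 1 : ν → ℕ) x + (Pi.single s 1 : ν → ℕ) x = a.1 x
      by_cases hx : x = s
      · subst hx
        rw [Pi.single_eq_same]
        omega
      · rw [Pi.single_eq_of_ne hx, Nat.sub_zero, Nat.add_zero]
    have hbm : b ∈ Ex β D I := hb s hs b (by rw [hab]; exact a.2)
    have h3 : L f.1 = 0 := f.2
    have h4 := congrFun (congrArg Subtype.val (congrFun h3 ⟨s, hs⟩)) ⟨b, hbm⟩
    have h5 : cv s (ext0 (Ex β (D + 1) I') f.1.1) b = 0 := h4
    unfold cv at h5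
    rw [hab, ext0_mem] at h5
    exact (mul_eq_zero.1 h5).resolve_left (Nat.cast_ne_zero.2 (Nat.succ_ne_zero _))
  have hR : Function.Injective R := by
    intro f g hfg
    refine Subtype.ext (Subtype.ext (funext fun a => ?_))
    by_cases haT : a.1 ∈ T
    · exact congrFun hfg ⟨a.1, haT⟩
    · rw [hz f a haT, hz g a haT]
  have hk := LinearMap.finrank_le_finrank_of_injective hR
  rw [Module.finrank_fintype_fun_eq_card, Fintype.card_coe] at hk
  have hr : Module.finrank ℂ (LinearMap.range L) ≤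
      S.card * Module.finrank ℂ ((LS d D β I).V m p) := by
    refine (Submodule.finrank_le _).trans ?_
    rw [Module.finrank_pi_fintype, sum_const, card_univ, Fintype.card_coe, smul_eq_mul]
  have h6 := LinearMap.finrank_range_add_finrank_ker L
  rw [← h6]
  exact Nat.add_le_add hr hk

/-- Contraction with the variables of the block `i`. -/
theorem up1 {D : ℕ} (hD : D + 1 ≤ d) (β : ν → ℕ) {i : ℕ} {I : Finset ℕ} (hi : i ∉ I)
    (ms : Multiset Kd) :
    HI d (D + 1) β (insert i I) ms ≤ (univ.filter fun s => β s = i).card * HI d D β I ms := by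
  have h := up_gen hD β I (insert i I) (univ.filter fun s => β s = i) (by
    intro s hs i' hi'
    refine ⟨mem_insert_of_mem hi', ?_⟩
    rw [(mem_filter.1 hs).2]
    rintro rfl
    exact hi hi') (by
    intro s hs b hb
    have hs' := (mem_filter.1 hs).2
    rw [mem_Ex, sum_add_single] at hb
    rw [mem_Ex]
    refine ⟨by omega, fun i' hi' => ?_⟩
    obtain ⟨x, hx, hxb⟩ := hb.2 i' (mem_insert_of_mem hi')
    refine ⟨x, hx, ?_⟩
    have hxs : x ≠ s := by
      rintro rfl
      rw [hs'] at hx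
      exact hi (hx ▸ hi')
    rwa [Pi.add_apply, Pi.single_eq_of_ne hxs, Nat.add_zero] at hxb) ms
  have h2 : ((Ex β (D + 1) (insert i I)).filter fun a =>
      ∀ s ∈ univ.filter (fun s => β s = i), a s = 0).card = 0 := by
    rw [card_eq_zero, filter_eq_empty_iff]
    intro a ha hcon
    obtain ⟨s, hs, has⟩ := (mem_Ex.1 ha).2 i (mem_insert_self _ _)
    exact has (hcon s (mem_filter.2 ⟨mem_univ _, hs⟩))
  rwa [h2, Nat.add_zero] at h

/-- Contraction with the variables off the blocks of `I`. -/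
theorem up2 {D : ℕ} (hD : D + 1 ≤ d) (β : ν → ℕ) (I : Finset ℕ) (ms : Multiset Kd) :
    HI d (D + 1) β I ms ≤ (univ.filter fun s => β s ∉ I).card * HI d D β I ms +
      ((Ex β (D + 1) I).filter fun a => ∀ s, β s ∉ I → a s = 0).card := by
  have h := up_gen hD β I I (univ.filter fun s => β s ∉ I) (by
    intro s hs i' hi'
    refine ⟨hi', ?_⟩
    rintro rfl
    exact (mem_filter.1 hs).2 hi') (by
    intro s hs b hb
    have hs' := (mem_filter.1 hs).2
    rw [mem_Ex, sum_add_single] at hb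
    rw [mem_Ex]
    refine ⟨by omega, fun i' hi' => ?_⟩
    obtain ⟨x, hx, hxb⟩ := hb.2 i' hi'
    refine ⟨x, hx, ?_⟩
    have hxs : x ≠ s := by
      rintro rfl
      exact hs' (hx ▸ hi')
    rwa [Pi.add_apply, Pi.single_eq_of_ne hxs, Nat.add_zero] at hxb) ms
  have h2 : ((Ex β (D + 1) I).filter fun a => ∀ s ∈ univ.filter (fun s => β s ∉ I), a s = 0) =
      (Ex β (D + 1) I).filter fun a => ∀ s, β s ∉ I → a s = 0 := by
    refine filter_congr fun a _ => ?_
    constructor
    · intro h3 s hs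
      exact h3 s (mem_filter.2 ⟨mem_univ _, hs⟩)
    · intro h3 s hs
      exact h3 s (mem_filter.1 hs).2
  rwa [h2] at h

/-- Contraction with all variables, no blocks. -/
theorem up0 {D : ℕ} (hD : D + 1 ≤ d) (β : ν → ℕ) (ms : Multiset Kd) :
    HI d (D + 1) β ∅ ms ≤ Fintype.card ν * HI d D β ∅ ms := by
  have h := up2 hD β ∅ ms
  have h1 : (univ.filter fun s => β s ∉ (∅ : Finset ℕ)).card = Fintype.card ν := by
    rw [filter_true_of_mem fun s _ => notMem_empty _, card_univ]
  have h2 : ((Ex β (D + 1) ∅).filter fun a => ∀ s, β s ∉ (∅ : Finset ℕ) → a s = 0).card = 0 := by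
    rw [card_eq_zero, filter_eq_empty_iff]
    intro a ha hcon
    have h3 := (mem_Ex.1 ha).1
    rw [sum_eq_zero fun s _ => hcon s (notMem_empty _)] at h3
    omega
  rwa [h1, h2, Nat.add_zero] at h

end

end Pool.Agent.GD.AL
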